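import Mathlib

/-! Covering numbers of graphs. -/

namespace Pool.Agent.MP_1da87e_co

/-- A class of finite simple graphs, given by its members on the vertex sets `Fin n`. -/
abbrev GClass : Type := (n : ℕ) → SimpleGraph (Fin n) → Prop

/-- closed under isomorphism -/
def IsoClosed (𝒞 : GClass) : Prop :=
  ∀ (m n : ℕ) (G : SimpleGraph (Fin m)) (H : SimpleGraph (Fin n)),
    Nonempty (G ≃g H) → 𝒞 m G → 𝒞 n H

/-- closed under induced subgraphs -/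
def Hereditary (𝒞 : GClass) : Prop :=
  ∀ (m n : ℕ) (G : SimpleGraph (Fin m)) (H : SimpleGraph (Fin n)),
    Nonempty (G ↪g H) → 𝒞 n H → 𝒞 m G

/-- all vertex-disjoint unions of members of the class -/
def unionClass (𝒢 : GClass) : GClass := fun n U =>
  ∃ (r : ℕ) (k : Fin r → ℕ) (G : ∀ j, SimpleGraph (Fin (k j))) (e : (Σ j, Fin (k j)) ≃ Fin n),
    (∀ j, 𝒢 (k j) (G j)) ∧
      ∀ x y, U.Adj x y ↔ ∃ j a b, (G j).Adj a b ∧ x = e ⟨j, a⟩ ∧ y = e ⟨j, b⟩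

/-- a `t`-global injective cover of `H` by the guests `G i` through the homomorphisms `φ i` -/
def IsInjCover (𝒢 : GClass) {n : ℕ} (H : SimpleGraph (Fin n)) (t : ℕ) (k : Fin t → ℕ)
    (G : ∀ i, SimpleGraph (Fin (k i))) (φ : ∀ i, G i →g H) : Prop :=
  0 < t ∧ (∀ i, 𝒢 (k i) (G i)) ∧ (∀ i, Function.Injective (φ i)) ∧
    ∀ u v, H.Adj u v → ∃ i a b, (G i).Adj a b ∧ φ i a = u ∧ φ i b = v

/-- union covering number -/
noncomputable def cu (𝒢 : GClass) {n : ℕ} (H : SimpleGraph (Fin n)) : ℕ∞ :=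
  sInf {x | ∃ (t : ℕ) (k : Fin t → ℕ) (G : ∀ i, SimpleGraph (Fin (k i))) (φ : ∀ i, G i →g H),
    IsInjCover (unionClass 𝒢) H t k G φ ∧ x = t}

/-- local covering number -/
noncomputable def cl (𝒢 : GClass) {n : ℕ} (H : SimpleGraph (Fin n)) : ℕ∞ :=
  sInf {x | ∃ (s t : ℕ) (k : Fin t → ℕ) (G : ∀ i, SimpleGraph (Fin (k i))) (φ : ∀ i, G i →g H),
    IsInjCover 𝒢 H t k G φ ∧ (∀ v, {p : Σ i, Fin (k i) | φ p.1 p.2 = v}.ncard ≤ s) ∧ x = s}

end Pool.Agent.MP_1da87e_co
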