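import Pool.Agent.MP_1da87e_co.Level

/-! Choice of the parameters. -/

namespace Pool.Agent.MP_1da87e_co

open Finset Sum

open Classical in
theorem level_of_params (k n0 t κ K' K C cx cD q u D : ℕ) [NeZero t] [NeZero (q * D)]
    (ht : 2 ^ (k + 5) * k ^ 2 ≤ t) (hκ : κ = t + t * t + 3 + n0)
    (hK' : K' = 2 ^ (k + 4) * k * κ + κ) (hK : K = t * K') (hC : C = 2 ^ (k + 4) * (4 * k + 1))
    (hcx : cx = C * (3 * K + 3)) (hcD : cD = 2 ^ (k + 2) * (4 * k + 1) * cx) (hq : q = 8 * cD * K)
    (hu : 0 < u) (hD : D = cD * u)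
    (hbig : (q * D) ^ ((K + 1) + ((K + K + K + (K + 1) * (t * t) + (K + 3)) + 1) * (k + C) + 1
      + (2 * K + 4)) < 2 ^ u) : Nonempty (Level k n0) := by
  have ht0 : 0 < t := Nat.pos_of_ne_zero (NeZero.ne t)
  have hd0 : 0 < q * D := Nat.pos_of_ne_zero (NeZero.ne _)
  have hκK' : κ ≤ K' := by omega
  have hK'K : K' ≤ K := by rw [hK]; exact Nat.le_mul_of_pos_left _ ht0
  have hK'0 : 0 < K' := by omega
  have hK0 : 0 < K := by omega
  have htK : t ≤ K := by rw [hK]; exact Nat.le_mul_of_pos_right _ hK'0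
  have hC0 : 0 < C := by rw [hC]; positivity
  have hcx0 : 0 < cx := by rw [hcx]; positivity
  have hCcx : C ≤ cx := by rw [hcx]; exact Nat.le_mul_of_pos_right _ (by omega)
  have hKcx : K ≤ cx := by rw [hcx]; nlinarith
  have hcxcD : cx ≤ cD := by rw [hcD]; exact Nat.le_mul_of_pos_left _ (by positivity)
  have hcD0 : 0 < cD := by omega
  have hD0 : 0 < D := by rw [hD]; positivity
  have huD : u ≤ D := by rw [hD]; exact Nat.le_mul_of_pos_left _ hcD0
  have hq0 : 0 < q := by rw [hq]; positivity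
  have hqd : q ≤ q * D := Nat.le_mul_of_pos_right _ hD0
  have hcDq : 8 * cD ≤ q := by rw [hq]; exact Nat.le_mul_of_pos_right _ hK0
  set d := q * D with hd
  have hKd : K ≤ d := by omega
  have hCd : C ≤ d := by omega
  have htd : t ≤ d := by omega
  have h8 : 8 ≤ d := by omega
  have cΓ : Fintype.card (ZMod t) = t := ZMod.card t
  have cI : Fintype.card (ZMod t × Fin K') = K := by simp [hK]
  have cX : Fintype.card (Fin d) = q * D := by simp [hd]
  have : Nonempty (ZMod t × Fin K') := ⟨(0, ⟨0, hK'0⟩)⟩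
  set N := Fintype.card (Ln (ZMod t × Fin K') (Fin d)) with hN
  have cP : Fintype.card (ZMod t × Fin K' → Fin d) = d ^ K := by
    rw [Fintype.card_fun, cI, Fintype.card_fin]
  have hNd : N * d = K * d ^ K := by
    have := card_ln (I := ZMod t × Fin K') (X := Fin d)
    rwa [cI, cP, Fintype.card_fin] at this
  have hNle : N ≤ d ^ (K + 1) := by
    calc N ≤ N * d := Nat.le_mul_of_pos_right _ hd0
      _ = K * d ^ K := hNd
      _ ≤ d * d ^ K := Nat.mul_le_mul_right _ hKd
      _ = _ := by ring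
  have hd1 : 1 ≤ d := by omega
  set m := K + K + K + (K + 1) * (t * t) + (K + 3) with hm
  have hM : Fintype.card (Idx (ZMod t) (ZMod t × Fin K') (Fin d) (N * C + 1)) ≤ d ^ m := by
    simp only [Idx, Fintype.card_prod, Fintype.card_fun, Fintype.card_fin, cΓ, ← hN, ← hK]
    have h1 : t ^ K ≤ d ^ K := Nat.pow_le_pow_left htd _
    have h2 : N ^ (t * t) ≤ d ^ ((K + 1) * (t * t)) := by
      rw [pow_mul d]; exact Nat.pow_le_pow_left hNle _
    have h3 : N * C + 1 ≤ d ^ (K + 3) := by
      have h4 : N * C ≤ d ^ (K + 1) * d := Nat.mul_le_mul hNle hCd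
      have h5 : 1 ≤ d ^ (K + 1) * d := Nat.mul_pos (by positivity) hd0
      calc N * C + 1 ≤ 2 * (d ^ (K + 1) * d) := by omega
        _ ≤ d * (d ^ (K + 1) * d) := Nat.mul_le_mul_right _ (by omega)
        _ = _ := by ring
    calc _ ≤ d ^ K * (d ^ K * (d ^ K * (d ^ ((K + 1) * (t * t)) * d ^ (K + 3)))) := by gcongr
      _ = _ := by rw [hm]; ring
  obtain ⟨P, hP1, hP2, hP3⟩ := exists_points (I := ZMod t × Fin K') (X := Fin d) q D u hq0 cX
    (by rw [cI, hq, hD]; apply le_of_eq; ring) huD (by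
      rw [← hN]
      have h1 : q * (N + 2 * N ^ 2) ≤ d ^ (2 * K + 4) := by
        have h2 : N ^ 2 ≤ (d ^ (K + 1)) ^ 2 := Nat.pow_le_pow_left hNle _
        have h3 : N ≤ N ^ 2 := Nat.le_self_pow (by norm_num) _
        calc _ ≤ d * (3 * (d ^ (K + 1)) ^ 2) := Nat.mul_le_mul hqd (by omega)
          _ ≤ d * (d * (d ^ (K + 1)) ^ 2) := by gcongr; omega
          _ = _ := by ring
      have h2 : q * (N + 2 * N ^ 2) < 2 ^ u :=
        lt_of_le_of_lt (h1.trans (Nat.pow_le_pow_right hd1 (by omega))) hbig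
      exact_mod_cast h2)
  obtain ⟨lam, hlow, hup⟩ := exists_labels (X := Fin d)
    (M := Idx (ZMod t) (ZMod t × Fin K') (Fin d) (N * C + 1)) (B := Ln (ZMod t × Fin K') (Fin d))
    (fun v => Finset.univ.filter (fun x => pt v x ∈ P)) k C u D (cx * u) hP2
    (by rw [hD, hcD, hC]; apply le_of_eq; ring) huD (by
      rw [← hN]
      set M := Fintype.card (Idx (ZMod t) (ZMod t × Fin K') (Fin d) (N * C + 1))
      have h1 : 2 * M ≤ d ^ (m + 1) := by
        rw [pow_succ, mul_comm]; exact Nat.mul_le_mul hM (by omega)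
      have h0 : 1 ≤ d ^ (m + 1) := Nat.one_le_pow _ _ hd0
      have h2 : (2 * M) ^ k ≤ d ^ ((m + 1) * (k + C)) := by
        rw [pow_mul d]
        exact (Nat.pow_le_pow_left h1 _).trans (Nat.pow_le_pow_right h0 (by omega))
      have h3 : (2 * M) ^ C ≤ d ^ ((m + 1) * (k + C)) := by
        rw [pow_mul d]
        exact (Nat.pow_le_pow_left h1 _).trans (Nat.pow_le_pow_right h0 (by omega))
      have h4 : N * ((2 * M) ^ k + (2 * M) ^ C) ≤ d ^ ((K + 1) + (m + 1) * (k + C) + 1) := by
        calc _ ≤ d ^ (K + 1) * (2 * d ^ ((m + 1) * (k + C))) := Nat.mul_le_mul hNle (by omega)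
          _ ≤ d ^ (K + 1) * (d * d ^ ((m + 1) * (k + C))) := by gcongr; omega
          _ = _ := by ring
      have h5 : N * ((2 * M) ^ k + (2 * M) ^ C) < 2 ^ u :=
        lt_of_le_of_lt (h4.trans (Nat.pow_le_pow_right hd1 (by omega))) hbig
      exact_mod_cast h5)
  have hdflt : ∀ g : ZMod t, (Finset.univ.filter (fun i : ZMod t × Fin K' => i.1 = g)).card ≤ K' := by
    intro g
    have := Finset.card_le_card_of_injOn (s := Finset.univ.filter (fun i : ZMod t × Fin K' => i.1 = g))
      (t := Finset.univ) Prod.snd (by simp) (by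
        intro i hi j hj h
        simp only [Finset.coe_filter, Set.mem_ofPred_eq, Finset.mem_univ, true_and] at hi hj
        exact Prod.ext (hi.trans hj.symm) h)
    simpa using this
  refine ⟨{
    V := Vx (ZMod t × Fin K') (Fin d)
    H := gr (EP P)
    OK := fun Im Rl => Sparse κ (2 * cx * u) Rl ∨ Typed lam (K' + (t + t * t)) Im Rl
    big := ?_
    bip := gr_colorable _
    small := ?_
    upper := ?_
    lower := ?_ }⟩
  · rw [Fintype.card_sum, cP]
    have : d ≤ d ^ K := Nat.le_self_pow (by omega) _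
    omega
  · intro Im Rl h1 h2
    left
    refine ⟨fun _ _ => True, ?_, by simp⟩
    intro a
    refine le_trans ?_ (h2.trans (by omega))
    rw [← Set.ncard_coe_finset]
    apply Set.ncard_le_ncard_of_injOn inr _ Sum.inr_injective.injOn
    intro v hv
    simp only [Finset.coe_filter, Set.mem_ofPred_eq, Finset.mem_univ, true_and] at hv
    exact h1 _ _ hv.1
  · intro J _ fam Im Rl h1 h2 h3
    refine not_cover (Nat.succ_pos _) lam P k κ (2 * cx * u) (K' + (t + t * t)) (2 ^ (k + 1) * u)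
      hlow ?_ fam Im Rl h1 h2 h3
    rw [← hN, cI]
    rw [cP] at hP1
    have a1 : 8 * (2 ^ (k + 1) * (k * κ)) ≤ K := by
      have : 8 * (2 ^ (k + 1) * (k * κ)) = 2 ^ (k + 4) * k * κ := by ring
      omega
    have a2 : 8 * (2 ^ (k + 1) * (k * (k * (K' + (t + t * t))))) ≤ K := by
      calc _ ≤ 8 * (2 ^ (k + 1) * (k * (k * (2 * K')))) := by gcongr; omega
        _ = 2 ^ (k + 5) * k ^ 2 * K' := by ring
        _ ≤ _ := by rw [hK]; exact Nat.mul_le_mul_right _ ht
    have a3 : 2 * (2 ^ (k + 1) * (k * (2 * cx * u) + 2 * k) + 2 ^ (k + 1) * u) ≤ D := by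
      have b1 : 1 ≤ cx * u := Nat.mul_pos hcx0 hu
      have b2 : u ≤ cx * u := Nat.le_mul_of_pos_left _ hcx0
      calc _ = 2 ^ (k + 2) * (2 * k * (cx * u) + 2 * k * 1 + u) := by ring
        _ ≤ 2 ^ (k + 2) * (2 * k * (cx * u) + 2 * k * (cx * u) + cx * u) := by gcongr
        _ = _ := by rw [hD, hcD]; ring
    have a4 : N * D ≤ K * P.card := by
      have b1 : q * (N * D) ≤ q * (K * P.card) := by
        calc q * (N * D) = N * d := by rw [hd]; ring
          _ = K * d ^ K := hNd
          _ ≤ K * (q * P.card) := Nat.mul_le_mul_left _ hP1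
          _ = _ := by ring
      exact Nat.le_of_mul_le_mul_left b1 hq0
    have a5 : 0 < K * P.card := by
      apply Nat.mul_pos hK0
      apply Nat.pos_of_ne_zero
      intro h
      rw [h] at hP1
      have : 0 < d ^ K := by positivity
      omega
    have b1 := Nat.mul_le_mul_left P.card a1
    have b2 := Nat.mul_le_mul_left P.card a2
    have b3 := Nat.mul_le_mul_left N a3
    nlinarith
  · intro Xg hX S0 hS0 hcard
    have := local_cover lam P κ (2 * cx * u) (cx * u) C K' u n0 hu hP3 hup Prod.fst hdflt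
      (by rw [cΓ]; omega) (by omega) (by
        rw [cI]
        have b1 : C * 1 ≤ C * u := Nat.mul_le_mul_left _ hu
        have b2 : cx * u = 3 * (C * K * u) + 3 * (C * u) := by rw [hcx]; ring
        have b3 : C * (3 * K * u + 1) = 3 * (C * K * u) + C := by ring
        have b4 : 2 * cx * u = 2 * (cx * u) := by ring
        omega) (by
        rw [cI]
        have b2 : cx ≤ cx * u := Nat.le_mul_of_pos_right _ hu
        have b4 : 2 * cx * u = 2 * (cx * u) := by ring
        omega) (Nat.lt_succ_self _) (by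
        rw [cI]
        have b2 : K ≤ K * u := Nat.le_mul_of_pos_right _ hu
        have b4 : 3 * K * u = 3 * (K * u) := by ring
        omega) Xg hX S0 hS0 hcard
    rwa [cΓ] at this

theorem nonempty_level (k n0 : ℕ) : Nonempty (Level k n0) := by
  set t := 2 ^ (k + 5) * k ^ 2 + 1 with ht
  set κ := t + t * t + 3 + n0 with hκ
  set K' := 2 ^ (k + 4) * k * κ + κ with hK'
  set K := t * K' with hK
  set C := 2 ^ (k + 4) * (4 * k + 1) with hC
  set cx := C * (3 * K + 3) with hcx
  set cD := 2 ^ (k + 2) * (4 * k + 1) * cx with hcD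
  set q := 8 * cD * K with hq
  obtain ⟨u, hu, hbig⟩ := exists_big (q * cD)
    ((K + 1) + ((K + K + K + (K + 1) * (t * t) + (K + 3)) + 1) * (k + C) + 1 + (2 * K + 4))
  have : NeZero t := ⟨by omega⟩
  have : NeZero (q * (cD * u)) := ⟨by positivity⟩
  exact level_of_params k n0 t κ K' K C cx cD q u (cD * u) (by omega) rfl rfl rfl rfl rfl rfl rfl hu rfl
    (by rwa [mul_assoc] at hbig)

end Pool.Agent.MP_1da87e_co
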