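import Pool.Agent.MP_1da87e_co.Prob

/-! Points and axis-parallel lines of a grid; a sparse rigid point set. -/

namespace Pool.Agent.MP_1da87e_co

open Finset

section geo

variable {I X : Type} [DecidableEq I] [Inhabited X]

/-- axis-parallel lines of the grid `I → X`. -/
def Ln (I X : Type) [Inhabited X] : Type := {p : I × (I → X) // p.2 p.1 = default}

noncomputable instance [Fintype I] [Fintype X] : Fintype (Ln I X) := by
  classical
  unfold Ln; infer_instance

def Ln.dir (v : Ln I X) : I := v.1.1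

def ln (a : I → X) (i : I) : Ln I X := ⟨(i, Function.update a i default), by simp⟩

def Inc (a : I → X) (v : Ln I X) : Prop := ∀ j, j ≠ v.dir → a j = v.1.2 j

def pt (v : Ln I X) (x : X) : I → X := Function.update v.1.2 v.dir x

@[simp] lemma dir_ln (a : I → X) (i : I) : (ln a i).dir = i := rfl

lemma inc_ln (a : I → X) (i : I) : Inc a (ln a i) := by
  intro j hj
  simp only [dir_ln] at hj
  simp [ln, hj]

lemma ln_dir {a : I → X} {v : Ln I X} (h : Inc a v) : ln a v.dir = v := by
  apply Subtype.ext
  apply Prod.ext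
  · rfl
  · funext j
    by_cases hj : j = v.dir
    · subst hj
      simp only [ln, Function.update_self]
      exact v.2.symm
    · simp only [ln, Function.update_of_ne hj]
      exact h j hj

lemma inc_pt (v : Ln I X) (x : X) : Inc (pt v x) v := by
  intro j hj
  simp [pt, hj]

@[simp] lemma pt_dir (v : Ln I X) (x : X) : pt v x v.dir = x := by simp [pt]

lemma pt_eq {a : I → X} {v : Ln I X} (h : Inc a v) : pt v (a v.dir) = a := by
  funext j
  by_cases hj : j = v.dir
  · subst hj; simp
  · simp only [pt, Function.update_of_ne hj]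
    exact (h j hj).symm

lemma pt_inj (v : Ln I X) : Function.Injective (pt v) := by
  intro x y h
  have := congrFun h v.dir
  simpa using this

lemma line_unique {a a' : I → X} {v u : Ln I X} (h1 : Inc a v) (h2 : Inc a' v) (h3 : Inc a u)
    (h4 : Inc a' u) (hne : a ≠ a') : v = u := by
  obtain ⟨j, hj⟩ := Function.ne_iff.1 hne
  have e1 : j = v.dir := by
    by_contra h
    exact hj ((h1 j h).trans (h2 j h).symm)
  have e2 : j = u.dir := by
    by_contra h
    exact hj ((h3 j h).trans (h4 j h).symm)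
  rw [← ln_dir h1, ← ln_dir h3, ← e1, ← e2]

lemma point_unique {a a' : I → X} {v u : Ln I X} (h1 : Inc a v) (h2 : Inc a' v) (h3 : Inc a u)
    (h4 : Inc a' u) (hne : v ≠ u) : a = a' := by
  by_contra h
  exact hne (line_unique h1 h2 h3 h4 h)

lemma eq_of_dir {a : I → X} {v u : Ln I X} (h1 : Inc a v) (h2 : Inc a u) (h : v.dir = u.dir) :
    v = u := by
  rw [← ln_dir h1, ← ln_dir h2, h]

def lnEquiv : Ln I X × X ≃ I × (I → X) where
  toFun p := (p.1.dir, pt p.1 p.2)
  invFun p := (ln p.2 p.1, p.2 p.1)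
  left_inv p := by
    apply Prod.ext
    · exact ln_dir (inc_pt p.1 p.2)
    · simp
  right_inv p := by
    apply Prod.ext
    · rfl
    · exact pt_eq (inc_ln p.2 p.1)

lemma card_ln [Fintype I] [Fintype X] :
    Fintype.card (Ln I X) * Fintype.card X = Fintype.card I * Fintype.card (I → X) := by
  rw [← Fintype.card_prod, ← Fintype.card_prod]
  exact Fintype.card_congr lnEquiv

open Classical in
lemma card_lines_le [Fintype I] [Fintype X] (a : I → X) (T : Finset (Ln I X))
    (hT : ∀ v ∈ T, Inc a v) : T.card ≤ Fintype.card I := by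
  rw [← Finset.card_univ]
  apply Finset.card_le_card_of_injOn Ln.dir (by simp)
  intro v hv u hu h
  exact eq_of_dir (hT v hv) (hT u hu) h

open Classical in
noncomputable def meet (u u' : Ln I X) : I → X :=
  if h : ∃ a, Inc a u ∧ Inc a u' then h.choose else fun _ => default

lemma meet_eq {a : I → X} {u u' : Ln I X} (h1 : Inc a u) (h2 : Inc a u') (hne : u ≠ u') :
    meet u u' = a := by
  have h : ∃ a, Inc a u ∧ Inc a u' := ⟨a, h1, h2⟩
  unfold meet
  rw [dif_pos h]
  exact point_unique h.choose_spec.1 h1 h.choose_spec.2 h2 hne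

open Classical in
noncomputable def img (G : Finset (Ln I X × Ln I X)) (v : Ln I X) : Ln I X :=
  if h : ∃ u, (v, u) ∈ G then h.choose else v

open Classical in
noncomputable def cand [Fintype I] [Fintype X] (G : Finset (Ln I X × Ln I X)) :
    Finset ((I → X) × (I → X)) :=
  (G ×ˢ (Finset.univ : Finset (X × I))).image
    (fun p => (pt p.1.1 p.2.1, meet p.1.2 (img G (ln (pt p.1.1 p.2.1) p.2.2))))

lemma card_cand [Fintype I] [Fintype X] (G : Finset (Ln I X × Ln I X)) :
    (cand G).card ≤ G.card * (Fintype.card X * Fintype.card I) := by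
  classical
  unfold cand
  convert Finset.card_image_le using 1
  simp

end geo

/-- a fixed point free injective map is moved off itself on a third of the points. -/
lemma exists_third {α : Type} [DecidableEq α] (f : α → α) :
    ∀ (n : ℕ) (S : Finset α), S.card = n → Set.InjOn f S → (∀ a ∈ S, f a ≠ a) →
      ∃ T ⊆ S, S.card ≤ 3 * T.card ∧ ∀ a ∈ T, f a ∉ T := by
  intro n
  induction n using Nat.strong_induction_on with
  | _ n ih =>
    intro S hn hinj hfix
    rcases S.eq_empty_or_nonempty with rfl | ⟨a, ha⟩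
    · exact ⟨∅, by simp, by simp, by simp⟩
    · set S' := S.filter (fun b => b ≠ a ∧ b ≠ f a ∧ f b ≠ a) with hS'
      have hsub : S' ⊆ S := Finset.filter_subset _ _
      have hlt : S'.card < n := by
        rw [← hn]
        apply Finset.card_lt_card
        refine ⟨hsub, fun h => ?_⟩
        have := h ha
        simp [hS'] at this
      obtain ⟨T, hT, hc, hTf⟩ := ih _ hlt S' rfl (hinj.mono (by exact_mod_cast hsub))
        (fun b hb => hfix b (hsub hb))
      have haT : a ∉ T := fun h => by
        have := hT h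
        simp [hS'] at this
      refine ⟨insert a T, ?_, ?_, ?_⟩
      · intro b hb
        rcases Finset.mem_insert.1 hb with rfl | hb
        · exact ha
        · exact hsub (hT hb)
      · rw [Finset.card_insert_of_notMem haT]
        have h1 : (S.filter (fun b => f b = a)).card ≤ 1 := by
          apply Finset.card_le_one.2
          intro b hb c hc
          simp only [Finset.mem_filter] at hb hc
          exact hinj hb.1 hc.1 (hb.2.trans hc.2.symm)
        have h2 : S ⊆ S' ∪ (insert a (insert (f a) (S.filter (fun b => f b = a)))) := by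
          intro b hb
          simp only [hS', Finset.mem_union, Finset.mem_filter, Finset.mem_insert]
          tauto
        have h3 := Finset.card_le_card h2
        have h4 := Finset.card_union_le S' (insert a (insert (f a) (S.filter (fun b => f b = a))))
        have h5 := Finset.card_insert_le a (insert (f a) (S.filter (fun b => f b = a)))
        have h6 := Finset.card_insert_le (f a) (S.filter (fun b => f b = a))
        omega
      · intro b hb
        rcases Finset.mem_insert.1 hb with rfl | hb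
        · intro h
          rcases Finset.mem_insert.1 h with h | h
          · exact hfix _ ha h
          · have := hT h
            simp [hS'] at this
        · intro h
          rcases Finset.mem_insert.1 h with h | h
          · have := hT hb
            simp only [hS', Finset.mem_filter] at this
            exact this.2.2.2 h
          · exact hTf b hb h

open Classical in
/-- Stage 1: a sparse, not too irregular, rigid point set. -/
theorem exists_points {I X : Type} [Fintype I] [DecidableEq I] [Fintype X] [DecidableEq X]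
    [Inhabited X] (q D u : ℕ) (hq : 0 < q) (hd : Fintype.card X = q * D)
    (hqu : 8 * D * Fintype.card I ≤ q * u) (huD : u ≤ D)
    (hnum : (q : ℝ) * (Fintype.card (Ln I X) + 2 * Fintype.card (Ln I X) ^ 2) < 2 ^ u) :
    ∃ P : Finset (I → X), Fintype.card (I → X) ≤ q * P.card ∧
      (∀ v : Ln I X, (Finset.univ.filter (fun x => pt v x ∈ P)).card ≤ 3 * D) ∧
      (∀ G : Finset (Ln I X × Ln I X), G.Nonempty → ∀ Q ⊆ cand G,
        (Q.image Prod.fst ∪ Q.image Prod.snd).card = 2 * Q.card →
        Q.image Prod.fst ∪ Q.image Prod.snd ⊆ P → Q.card < G.card * u) := by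
  have : Nonempty (Fin q) := ⟨⟨0, hq⟩⟩
  set N := Fintype.card (Ln I X) with hN
  have hq' : (0 : ℝ) < q := by exact_mod_cast hq
  have hq1 : (1 : ℝ) ≤ q := by exact_mod_cast hq
  let pts : Finset ((I → X) × (I → X)) → Finset (I → X) :=
    fun Q => Q.image Prod.fst ∪ Q.image Prod.snd
  let F1 : Fin q → Ln I X → ((I → X) → Fin q) → ℝ := fun j v ω =>
    (1 / 2 : ℝ) ^ (3 * D) * 2 ^ ((Finset.univ.image (pt v)).filter (fun a => ω a ∈ ({j} : Finset _))).card
  let QQ : Finset (Ln I X × Ln I X) → Finset (Finset ((I → X) × (I → X))) := fun G =>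
    (cand G).powerset.filter (fun Q => (pts Q).card = 2 * Q.card ∧ G.card * u ≤ Q.card)
  let F2 : Fin q → Finset ((I → X) × (I → X)) → ((I → X) → Fin q) → ℝ := fun j Q ω =>
    (0 : ℝ) ^ ((pts Q).filter (fun a => ω a ∈ ({j}ᶜ : Finset _))).card
  let GG : Finset (Finset (Ln I X × Ln I X)) := Finset.univ.powerset.erase ∅
  have hF1 : ∀ j v, ex (F1 j v) ≤ (1 / 2 : ℝ) ^ u := by
    intro j v
    simp only [F1]
    rw [ex_mul, mgf, Finset.card_image_of_injective _ (pt_inj v)]
    simp only [Finset.card_singleton, Fintype.card_fin, Finset.card_univ, hd]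
    have h1 := one_add_pow_le_exp' (((1 : ℕ) : ℝ) / q * (2 - 1)) (by
      have : (0 : ℝ) ≤ ((1 : ℕ) : ℝ) / q * (2 - 1) := by positivity
      linarith) (q * D)
    have h2 : (((q * D : ℕ) : ℝ) * (((1 : ℕ) : ℝ) / q * (2 - 1))) = D * 1 := by
      push_cast; field_simp; norm_num
    rw [h2, Real.exp_nat_mul] at h1
    have h3 : Real.exp 1 ≤ 4 := by linarith [Real.exp_one_lt_d9]
    calc _ ≤ (1 / 2 : ℝ) ^ (3 * D) * 4 ^ D := by
          gcongr
          exact h1.trans (pow_le_pow_left₀ (Real.exp_pos _).le h3 D)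
      _ = (1 / 2 : ℝ) ^ D := by
          rw [pow_mul, ← mul_pow]; norm_num
      _ ≤ _ := pow_le_pow_of_le_one (by norm_num) (by norm_num) huD
  have hF2 : ∀ j G, ∑ Q ∈ QQ G, ex (F2 j Q) ≤ ((1 / 2 : ℝ) ^ u) ^ G.card := by
    intro j G
    have h1 : ∀ Q ∈ QQ G, ex (F2 j Q) ≤ (1 / 4 : ℝ) ^ (G.card * u) * (4 / q ^ 2) ^ Q.card := by
      intro Q hQ
      obtain ⟨-, hc, hu⟩ := Finset.mem_filter.1 hQ
      simp only [F2]
      rw [mgf, hc, Finset.card_compl]
      simp only [Finset.card_singleton, Fintype.card_fin]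
      rw [Nat.cast_sub hq]
      have : (1 + ((q : ℝ) - ((1 : ℕ) : ℝ)) / q * (0 - 1)) = 1 / q := by
        push_cast; field_simp; ring
      rw [this, pow_mul]
      have e : ((1 / q : ℝ) ^ 2) = (1 / 4) * (4 / q ^ 2) := by field_simp
      rw [e, mul_pow]
      gcongr ?_ * _
      exact pow_le_pow_of_le_one (by norm_num) (by norm_num) hu
    calc _ ≤ ∑ Q ∈ QQ G, (1 / 4 : ℝ) ^ (G.card * u) * (4 / q ^ 2) ^ Q.card := Finset.sum_le_sum h1
      _ ≤ ∑ Q ∈ (cand G).powerset, (1 / 4 : ℝ) ^ (G.card * u) * (4 / q ^ 2) ^ Q.card := by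
          apply Finset.sum_le_sum_of_subset_of_nonneg (Finset.filter_subset _ _)
          intro _ _ _; positivity
      _ = (1 / 4 : ℝ) ^ (G.card * u) * (1 + 4 / q ^ 2) ^ (cand G).card := by
          rw [← Finset.mul_sum, sum_pow_card_powerset]
      _ ≤ (1 / 4 : ℝ) ^ (G.card * u) * 2 ^ (G.card * u) := by
          gcongr
          have h0 : (0 : ℝ) ≤ 4 / q ^ 2 := by positivity
          have h2 := one_add_pow_le_exp' (4 / (q : ℝ) ^ 2) (by linarith) (cand G).card
          refine h2.trans ?_
          have h3 : ((cand G).card : ℝ) ≤ G.card * (q * D * Fintype.card I) := by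
            have := card_cand G
            rw [hd] at this
            exact_mod_cast this
          have h4 : (8 * D * Fintype.card I : ℝ) ≤ q * u := by exact_mod_cast hqu
          have h5 : ((cand G).card : ℝ) * (4 / q ^ 2) ≤ (G.card * u : ℕ) * (1 / 2) := by
            push_cast
            have hG : (0 : ℝ) ≤ G.card := by positivity
            calc _ ≤ G.card * (q * D * Fintype.card I) * (4 / q ^ 2 : ℝ) := by gcongr
              _ = G.card * (8 * D * Fintype.card I) / (2 * q) := by field_simp; ring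
              _ ≤ G.card * (q * u) / (2 * q) := by gcongr
              _ = _ := by field_simp
          refine (Real.exp_le_exp.2 h5).trans ?_
          rw [Real.exp_nat_mul]
          apply pow_le_pow_left₀ (Real.exp_pos _).le
          have : Real.exp (1 / 2) * Real.exp (1 / 2) = Real.exp 1 := by
            rw [← Real.exp_add]; norm_num
          have h6 : Real.exp 1 ≤ 4 := by linarith [Real.exp_one_lt_d9]
          nlinarith [Real.exp_pos (1 / 2 : ℝ)]
      _ = _ := by
          rw [← mul_pow, ← pow_mul, mul_comm u]; norm_num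
  have hp : (0 : ℝ) < (1 / 2 : ℝ) ^ u := by positivity
  have hp2 : (2 : ℝ) ^ u * (1 / 2 : ℝ) ^ u = 1 := by rw [← mul_pow]; norm_num
  have hN0 : (0 : ℝ) ≤ N := by positivity
  have hGG : ∑ G ∈ GG, ((1 / 2 : ℝ) ^ u) ^ G.card ≤ 2 * N ^ 2 * (1 / 2 : ℝ) ^ u := by
    have h1 := Finset.add_sum_erase (Finset.univ : Finset (Ln I X × Ln I X)).powerset
      (fun G => ((1 / 2 : ℝ) ^ u) ^ G.card) (Finset.empty_mem_powerset _)
    rw [sum_pow_card_powerset] at h1
    simp only [Finset.card_empty, pow_zero, Finset.card_univ, Fintype.card_prod] at h1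
    have h2 := one_add_pow_le_exp' ((1 / 2 : ℝ) ^ u) (by linarith) (N * N)
    have h3 : ((N * N : ℕ) : ℝ) * (1 / 2 : ℝ) ^ u ≤ 1 := by
      push_cast
      have : (N : ℝ) * N ≤ 2 ^ u := by nlinarith
      nlinarith
    have h4 : Real.exp (((N * N : ℕ) : ℝ) * (1 / 2 : ℝ) ^ u)
        ≤ 1 + 2 * (((N * N : ℕ) : ℝ) * (1 / 2 : ℝ) ^ u) := by
      have h0 : (0 : ℝ) ≤ ((N * N : ℕ) : ℝ) * (1 / 2 : ℝ) ^ u := by positivity
      have := Real.abs_exp_sub_one_le (x := ((N * N : ℕ) : ℝ) * (1 / 2 : ℝ) ^ u)
        (by rwa [abs_of_nonneg h0])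
      rw [abs_of_nonneg h0] at this
      linarith [le_abs_self (Real.exp (((N * N : ℕ) : ℝ) * (1 / 2 : ℝ) ^ u) - 1)]
    push_cast at h4 h2
    simp only [GG]
    nlinarith
  obtain ⟨ω, hω⟩ := exists_lt_one (fun ω : (I → X) → Fin q =>
      ∑ j : Fin q, (∑ v, F1 j v ω + ∑ G ∈ GG, ∑ Q ∈ QQ G, F2 j Q ω)) (by
    rw [ex_sum]
    have : ∀ j ∈ (Finset.univ : Finset (Fin q)),
        ex (fun ω => ∑ v, F1 j v ω + ∑ G ∈ GG, ∑ Q ∈ QQ G, F2 j Q ω)
        ≤ (N + 2 * N ^ 2) * (1 / 2 : ℝ) ^ u := by
      intro j _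
      rw [ex_add, ex_sum, ex_sum]
      have a1 := Finset.sum_le_card_nsmul Finset.univ _ _ (fun v _ => hF1 j v)
      simp only [nsmul_eq_mul, Finset.card_univ] at a1
      have a2 : ∑ G ∈ GG, ex (fun ω => ∑ Q ∈ QQ G, F2 j Q ω)
          ≤ ∑ G ∈ GG, ((1 / 2 : ℝ) ^ u) ^ G.card := by
        apply Finset.sum_le_sum
        intro G _
        rw [ex_sum]
        exact hF2 j G
      linarith
    have a1 := Finset.sum_le_card_nsmul Finset.univ _ _ this
    simp only [nsmul_eq_mul, Finset.card_univ, Fintype.card_fin] at a1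
    nlinarith)
  have p1 : ∀ j v, 0 ≤ F1 j v ω := fun j v => by simp only [F1]; positivity
  have p2 : ∀ j Q, 0 ≤ F2 j Q ω := fun j Q => by simp only [F2]; positivity
  have s1 : ∀ j, 0 ≤ ∑ v, F1 j v ω := fun j => Finset.sum_nonneg fun v _ => p1 j v
  have s2 : ∀ j G, 0 ≤ ∑ Q ∈ QQ G, F2 j Q ω := fun j G => Finset.sum_nonneg fun Q _ => p2 j Q
  have s3 : ∀ j, 0 ≤ ∑ G ∈ GG, ∑ Q ∈ QQ G, F2 j Q ω :=
    fun j => Finset.sum_nonneg fun G _ => s2 j G
  -- pigeonhole on the colour classes
  obtain ⟨j, hj⟩ : ∃ j : Fin q, Fintype.card (I → X)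
      ≤ q * (Finset.univ.filter (fun a => ω a = j)).card := by
    by_contra hc
    push Not at hc
    have h1 := Finset.card_eq_sum_card_fiberwise (f := ω) (s := Finset.univ) (t := Finset.univ)
      (fun _ _ => Finset.mem_univ _)
    have h2 : ∑ j : Fin q, q * (Finset.univ.filter (fun a => ω a = j)).card
        < ∑ _j : Fin q, Fintype.card (I → X) :=
      Finset.sum_lt_sum_of_nonempty Finset.univ_nonempty (fun j _ => hc j)
    rw [← Finset.mul_sum, ← h1] at h2
    simp at h2
  have hjω : ∑ v, F1 j v ω + ∑ G ∈ GG, ∑ Q ∈ QQ G, F2 j Q ω < 1 := by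
    have := Finset.single_le_sum
      (f := fun j => ∑ v, F1 j v ω + ∑ G ∈ GG, ∑ Q ∈ QQ G, F2 j Q ω)
      (fun j _ => add_nonneg (s1 j) (s3 j)) (Finset.mem_univ j)
    linarith
  refine ⟨Finset.univ.filter (fun a => ω a = j), hj, ?_, ?_⟩
  · intro v
    have h1 : F1 j v ω < 1 := by
      have := Finset.single_le_sum (f := fun v => F1 j v ω) (fun v _ => p1 j v) (Finset.mem_univ v)
      linarith [s3 j]
    simp only [F1] at h1
    have e : ((Finset.univ.image (pt v)).filter (fun a => ω a ∈ ({j} : Finset _))).card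
        = (Finset.univ.filter (fun x => pt v x ∈ Finset.univ.filter (fun a => ω a = j))).card := by
      rw [Finset.filter_image, Finset.card_image_of_injective _ (pt_inj v)]
      simp
    rw [e] at h1
    by_contra hc
    push Not at hc
    have : (2 : ℝ) ^ (3 * D) ≤ 2 ^ (Finset.univ.filter
        (fun x => pt v x ∈ Finset.univ.filter (fun a => ω a = j))).card :=
      pow_le_pow_right₀ (by norm_num) hc.le
    have h2 : (1 / 2 : ℝ) ^ (3 * D) * 2 ^ (3 * D) = 1 := by rw [← mul_pow]; norm_num
    have hp : (0 : ℝ) < (1 / 2 : ℝ) ^ (3 * D) := by positivity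
    nlinarith
  · intro G hG Q hQ hc hP
    by_contra hlt
    push Not at hlt
    have hQQ : Q ∈ QQ G := Finset.mem_filter.2 ⟨Finset.mem_powerset.2 hQ, hc, hlt⟩
    have hGm : G ∈ GG := Finset.mem_erase.2 ⟨hG.ne_empty, by simp⟩
    have h1 : F2 j Q ω = 1 := by
      simp only [F2]
      have : (pts Q).filter (fun a => ω a ∈ ({j}ᶜ : Finset _)) = ∅ := by
        apply Finset.filter_eq_empty_iff.2
        intro a ha
        have := hP ha
        simpa using this
      rw [this]; simp
    have h2 := Finset.single_le_sum (f := fun Q => F2 j Q ω) (fun Q _ => p2 j Q) hQQ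
    have h3 := Finset.single_le_sum (f := fun G => ∑ Q ∈ QQ G, F2 j Q ω) (fun G _ => s2 j G) hGm
    linarith [s1 j]

end Pool.Agent.MP_1da87e_co
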