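import Pool.Agent.MP_1da87e_co.Lower

/-! One level of the construction. -/

namespace Pool.Agent.MP_1da87e_co

open Finset Sum

open Classical in
theorem local_cover {Γ I X : Type} [Fintype Γ] [DecidableEq Γ] [AddCommGroup Γ] [Fintype I]
    [DecidableEq I] [Fintype X] [DecidableEq X] [Inhabited X] {R : ℕ}
    (lam : X → Idx Γ I X R → Bool) (P : Finset (I → X)) (κ θ x0 C K' u n0 : ℕ) (hu : 0 < u)
    (hP : ∀ G : Finset (Ln I X × Ln I X), G.Nonempty → ∀ Q ⊆ cand G,
        (Q.image Prod.fst ∪ Q.image Prod.snd).card = 2 * Q.card →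
        Q.image Prod.fst ∪ Q.image Prod.snd ⊆ P → Q.card < G.card * u)
    (hup : ∀ (v : Ln I X) (f : Fin C → Idx Γ I X R) (σ : Fin C → Bool), Function.Injective f →
      ((Finset.univ.filter (fun x => pt v x ∈ P)).filter (fun x => ∀ l, lam x (f l) = σ l)).card < x0)
    (dflt : I → Γ) (hdflt : ∀ g, (Finset.univ.filter (fun i => dflt i = g)).card ≤ K')
    (hκ : Fintype.card Γ + Fintype.card Γ * Fintype.card Γ ≤ κ) (hκ3 : 3 ≤ κ)
    (hθ : x0 + 2 + C * (3 * Fintype.card I * u + 1) ≤ θ) (hKθ : Fintype.card I ≤ θ)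
    (hRN : Fintype.card (Ln I X) * C < R) (hn0 : n0 ≤ 3 * Fintype.card I * u)
    (Xg : SimpleGraph (Vx I X)) (hX : Xg ≤ gr (EP P)) (S0 : Finset (Vx I X))
    (hS0 : ∀ x y, Xg.Adj x y → x ∈ S0) (hcard : n0 < S0.card) :
    ∃ (ι : Type) (_ : Fintype ι) (_ : Nonempty ι) (S : ι → Finset (Vx I X))
      (Rg : ι → SimpleGraph (Vx I X)), (∀ i, Rg i ≤ Xg) ∧ (∀ i, S i ⊆ S0) ∧
      (∀ i x y, (Rg i).Adj x y → x ∈ S i) ∧ (∀ x y, Xg.Adj x y → ∃ i, (Rg i).Adj x y) ∧
      (∀ x, {i | x ∈ S i}.ncard ≤ 3) ∧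
      ∀ i, n0 < (S i).card ∧ ∀ φ : Vx I X → Vx I X, Set.InjOn φ (S i) →
        (∀ x y, (Rg i).Adj x y → (gr (EP P)).Adj (φ x) (φ y)) →
        (Sparse κ θ (Relation.Map (Rg i).Adj φ φ) ∨
          Typed lam (K' + (Fintype.card Γ + Fintype.card Γ * Fintype.card Γ)) (φ '' (S i))
            (Relation.Map (Rg i).Adj φ φ)) := by
  set E : Finset ((I → X) × Ln I X) := Finset.univ.filter (fun e => Xg.Adj (inl e.1) (inr e.2))
    with hE
  have memE : ∀ e, e ∈ E ↔ Xg.Adj (inl e.1) (inr e.2) := by intro e; simp [hE]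
  have hEP : ∀ e ∈ E, e.1 ∈ P ∧ Inc e.1 e.2 := by
    intro e he
    have := hX ((memE e).1 he)
    simpa using this
  have hle : ∀ F ⊆ E, gr F ≤ Xg := by
    rintro F hF x y ⟨a, v, h, ⟨rfl, rfl⟩ | ⟨rfl, rfl⟩⟩
    · exact (memE _).1 (hF h)
    · exact ((memE _).1 (hF h)).symm
  have hXE : ∀ x y, Xg.Adj x y → ∃ a v, (a, v) ∈ E ∧
      ((x = inl a ∧ y = inr v) ∨ (x = inr v ∧ y = inl a)) := by
    intro x y h
    obtain ⟨a, v, -, h1⟩ := hX h
    refine ⟨a, v, ?_, h1⟩
    rcases h1 with ⟨rfl, rfl⟩ | ⟨rfl, rfl⟩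
    · exact (memE _).2 h
    · exact (memE _).2 h.symm
  obtain ⟨Co, hCo, c0, hcore, hp1, hp2⟩ := exists_core κ θ _ E rfl
  have hcore' : ∀ e ∈ Co, κ ≤ (Finset.univ.filter (fun v => (e.1, v) ∈ Co)).card ∧
      θ ≤ (Finset.univ.filter (fun a => (a, e.2) ∈ Co)).card := by
    intro e he
    exact ⟨(hcore e he).1.trans (Finset.card_le_card (by intro x; simp)),
      (hcore e he).2.trans (Finset.card_le_card (by intro x; simp))⟩
  have hsupp : ∀ x y, (gr (E \ Co)).Adj x y → x ∈ S0 :=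
    fun x y h => hS0 x y (hle _ Finset.sdiff_subset h)
  have hsparse : ∀ φ : Vx I X → Vx I X, Set.InjOn φ S0 →
      Sparse κ θ (Relation.Map (gr (E \ Co)).Adj φ φ) := by
    intro φ hφ
    apply sparse_of_peel κ θ hKθ (E \ Co) (fun e he => (hEP e (Finset.mem_sdiff.1 he).1).2) c0
      _ _ S0 hsupp φ hφ
    · intro a; exact le_trans (Finset.card_le_card (by intro x; simp)) (hp1 a)
    · intro v; exact le_trans (Finset.card_le_card (by intro x; simp)) (hp2 v)
  rcases Co.eq_empty_or_nonempty with hC | hC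
  · refine ⟨Unit, inferInstance, inferInstance, fun _ => S0, fun _ => gr (E \ Co),
      fun _ => hle _ Finset.sdiff_subset, fun _ => subset_rfl, fun _ => hsupp, ?_, ?_,
      fun _ => ⟨hcard, fun φ hφ _ => Or.inl (hsparse φ hφ)⟩⟩
    · intro x y h
      obtain ⟨a, v, h1, h2⟩ := hXE x y h
      exact ⟨(), a, v, by simp [hC, h1], h2⟩
    · intro x
      refine (Set.ncard_le_card _).trans (by simp)
  obtain ⟨π, hρ, hsplit, hz⟩ := exists_index lam P κ θ (3 * Fintype.card I * u + 1) x0 C K' hup dflt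
    hdflt hκ hθ (by omega) hRN Co (fun e he => hEP e (hCo he)) hC hcore'
  let Fc : Γ → Finset ((I → X) × Ln I X) := fun c => Co.filter (fun e => label lam π e.1 = c)
  have hFcE : ∀ c, Fc c ⊆ E := fun c => (Finset.filter_subset _ _).trans hCo
  have memFc : ∀ c e, e ∈ Fc c ↔ e ∈ Co ∧ label lam π e.1 = c := fun c e => Finset.mem_filter
  let Sc : Γ → Finset (Vx I X) := fun c => Finset.univ.filter (fun x => ∃ y, (gr (Fc c)).Adj x y)
  have memSc : ∀ c x, x ∈ Sc c ↔ ∃ y, (gr (Fc c)).Adj x y := by intro c x; simp [Sc]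
  have hFln : ∀ c, ∀ e ∈ Fc c, 3 * Fintype.card I * u + 1 ≤
      (Finset.univ.filter (fun a => (a, e.2) ∈ Fc c)).card := by
    intro c e he
    obtain ⟨h1, h2⟩ := (memFc c e).1 he
    refine (hsplit e h1 (bit lam π e.2.dir (e.1 e.2.dir))).trans (Finset.card_le_card ?_)
    intro a ha
    simp only [Finset.mem_filter, Finset.mem_univ, true_and] at ha ⊢
    refine (memFc _ _).2 ⟨ha.1, ?_⟩
    rw [← h2, label_eq lam π (hEP _ (hCo ha.1)).2, label_eq lam π (hEP _ (hCo h1)).2, ha.2]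
  have hFpt : ∀ c, ∀ e ∈ Fc c, 3 ≤ (Finset.univ.filter (fun v => (e.1, v) ∈ Fc c)).card := by
    intro c e he
    obtain ⟨h1, h2⟩ := (memFc c e).1 he
    refine (hκ3.trans (hcore' e h1).1).trans (Finset.card_le_card ?_)
    intro v hv
    simp only [Finset.mem_filter, Finset.mem_univ, true_and] at hv ⊢
    exact (memFc _ _).2 ⟨hv, h2⟩
  refine ⟨Option Γ, inferInstance, inferInstance, fun i => i.elim S0 Sc,
    fun i => i.elim (gr (E \ Co)) (fun c => gr (Fc c)), ?_, ?_, ?_, ?_, ?_, ?_⟩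
  · rintro (_ | c)
    · exact hle _ Finset.sdiff_subset
    · exact hle _ (hFcE c)
  · rintro (_ | c)
    · exact subset_rfl
    · intro x hx
      obtain ⟨y, hy⟩ := (memSc c x).1 hx
      exact hS0 x y (hle _ (hFcE c) hy)
  · rintro (_ | c)
    · exact hsupp
    · intro x y h
      exact (memSc c x).2 ⟨y, h⟩
  · intro x y h
    obtain ⟨a, v, h1, h2⟩ := hXE x y h
    by_cases h3 : (a, v) ∈ Co
    · exact ⟨some (label lam π a), a, v, (memFc _ _).2 ⟨h3, rfl⟩, h2⟩
    · exact ⟨none, a, v, Finset.mem_sdiff.2 ⟨h1, h3⟩, h2⟩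
  · rintro (a | v)
    · refine (Set.ncard_le_ncard (t := {none, some (label lam π a)}) ?_).trans
        ((Set.ncard_insert_le _ _).trans (by simp))
      rintro (_ | c) hi
      · simp
      · obtain ⟨y, hy⟩ := (memSc c _).1 hi
        rcases y with b | v
        · simp at hy
        · have := ((memFc _ _).1 ((gr_lr _ _ _).1 hy)).2
          simp only at this
          simp [this]
    · refine (Set.ncard_le_ncard (t := {none, some (base lam π v),
        some (base lam π v + π.2.2.1 v.dir)}) ?_).trans ?_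
      · rintro (_ | c) hi
        · simp
        · obtain ⟨y, hy⟩ := (memSc c _).1 hi
          rcases y with a | w
          · obtain ⟨h1, h2⟩ := (memFc _ _).1 ((gr_rl _ _ _).1 hy)
            rw [label_eq lam π (hEP _ (hCo h1)).2] at h2
            simp only at h2
            split_ifs at h2
            · simp [h2]
            · simp [← h2]
          · simp at hy
      · refine (Set.ncard_insert_le _ _).trans ?_
        have := Set.ncard_insert_le (some (base lam π v)) {some (base lam π v + π.2.2.1 v.dir)}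
        simp only [Set.ncard_singleton] at this
        omega
  · rintro (_ | c)
    · exact ⟨hcard, fun φ hφ _ => Or.inl (hsparse φ hφ)⟩
    · have hz1 : ∀ c', ∃ a, (a, π.2.2.2.1 (c, c')) ∈ Fc c := by
        intro c'
        obtain ⟨a, h1, h2⟩ := (hz c c').1
        exact ⟨a, (memFc _ _).2 ⟨h1, h2⟩⟩
      have hz2 : ∀ c', ∃ a, (a, π.2.2.2.1 (c', c)) ∈ Fc c := by
        intro c'
        obtain ⟨a, h1, h2⟩ := (hz c' c).2
        exact ⟨a, (memFc _ _).2 ⟨h1, h2⟩⟩
      constructor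
      · obtain ⟨a, ha⟩ := hz1 c
        have h1 := hFln c _ ha
        have h2 : (Finset.univ.filter (fun b => (b, π.2.2.2.1 (c, c)) ∈ Fc c)).card ≤ (Sc c).card := by
          apply Finset.card_le_card_of_injOn inl
          · intro b hb
            simp only [Finset.coe_filter, Set.mem_ofPred_eq, Finset.mem_univ, true_and] at hb
            exact (memSc c _).2 ⟨inr _, (gr_lr _ _ _).2 hb⟩
          · exact Sum.inl_injective.injOn
        simp only [Option.elim] at h1 ⊢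
        omega
      · intro φ hφ hhom
        right
        have hfix := fixed_of_hom P u hu hP (Fc c) (fun e he => hEP e (hFcE c he)) (hFpt c) (hFln c)
          (Sc c) (fun x y h => (memSc c x).2 ⟨y, h⟩) φ hφ hhom
        refine ⟨π, c, hρ, ?_, fun c' => ⟨?_, ?_⟩⟩
        · rintro a v ⟨x, y, ⟨a', v', h1, ⟨rfl, rfl⟩ | ⟨rfl, rfl⟩⟩, h2, h3⟩
          · rw [(hfix _ h1).1] at h2
            cases h2
            exact ((memFc _ _).1 h1).2
          · rw [(hfix _ h1).2] at h2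
            cases h2
        · obtain ⟨a, ha⟩ := hz1 c'
          exact ⟨_, (memSc c _).2 ⟨inl a, (gr_rl _ _ _).2 ha⟩, (hfix _ ha).2⟩
        · obtain ⟨a, ha⟩ := hz2 c'
          exact ⟨_, (memSc c _).2 ⟨inl a, (gr_rl _ _ _).2 ha⟩, (hfix _ ha).2⟩

/-- A host graph with a notion of good image. -/
structure Level (k n0 : ℕ) where
  V : Type
  [fin : Fintype V]
  H : SimpleGraph V
  OK : Set V → (V → V → Prop) → Prop
  big : n0 < Fintype.card V
  bip : H.Colorable 2
  small : ∀ (Im : Set V) (Rl : V → V → Prop), (∀ x y, Rl x y → y ∈ Im) → Im.ncard ≤ n0 → OK Im Rl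
  upper : ∀ {J : Type} [Fintype J] (fam : J → Fin k) (Im : J → Set V) (Rl : J → V → V → Prop),
    (∀ j x y, Rl j x y → x ∈ Im j ∧ y ∈ Im j) →
    (∀ j j' x, fam j = fam j' → x ∈ Im j → x ∈ Im j' → j = j') →
    (∀ j, OK (Im j) (Rl j)) → ∃ x y, H.Adj x y ∧ ∀ j, ¬ Rl j x y
  lower : ∀ (Xg : SimpleGraph V), Xg ≤ H → ∀ S0 : Finset V, (∀ x y, Xg.Adj x y → x ∈ S0) →
    n0 < S0.card → ∃ (ι : Type) (_ : Fintype ι) (_ : Nonempty ι) (S : ι → Finset V)
      (Rg : ι → SimpleGraph V), (∀ i, Rg i ≤ Xg) ∧ (∀ i, S i ⊆ S0) ∧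
      (∀ i x y, (Rg i).Adj x y → x ∈ S i) ∧ (∀ x y, Xg.Adj x y → ∃ i, (Rg i).Adj x y) ∧
      (∀ x, {i | x ∈ S i}.ncard ≤ 3) ∧
      ∀ i, n0 < (S i).card ∧ ∀ φ : V → V, Set.InjOn φ (S i) →
        (∀ x y, (Rg i).Adj x y → H.Adj (φ x) (φ y)) → OK (φ '' (S i)) (Relation.Map (Rg i).Adj φ φ)

attribute [instance] Level.fin

lemma exists_big (c e : ℕ) : ∃ u : ℕ, 0 < u ∧ (c * u) ^ e < 2 ^ u := by
  have h := tendsto_pow_const_div_const_pow_of_one_lt e (r := (2 : ℝ)) (by norm_num)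
  have hc : (0 : ℝ) < 1 / (c ^ e + 1) := by positivity
  have h2 := (h.eventually (gt_mem_nhds hc)).and (Filter.eventually_gt_atTop 0)
  obtain ⟨u, h3, h4⟩ := h2.exists
  refine ⟨u, h4, ?_⟩
  have h5 : (0 : ℝ) < 2 ^ u := by positivity
  rw [div_lt_div_iff₀ h5 (by positivity)] at h3
  have h6 : (0 : ℝ) ≤ (u : ℝ) ^ e := by positivity
  have : ((c : ℝ) * u) ^ e < 2 ^ u := by
    rw [mul_pow]; nlinarith
  exact_mod_cast this

lemma gr_colorable {I X : Type} [Inhabited X] (F : Finset ((I → X) × Ln I X)) :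
    (gr F).Colorable 2 := by
  refine ⟨SimpleGraph.Coloring.mk (fun x => Sum.elim (fun _ => 0) (fun _ => 1) x) ?_⟩
  rintro x y ⟨a, v, -, ⟨rfl, rfl⟩ | ⟨rfl, rfl⟩⟩ <;> simp

end Pool.Agent.MP_1da87e_co
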