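import Pool.Agent.MP_1da87e_co.Upper

/-! Local covers of subgraphs of the host by graphs all of whose copies are good. -/

namespace Pool.Agent.MP_1da87e_co

open Finset Sum

section

variable {Γ I X : Type} [Fintype Γ] [DecidableEq Γ] [AddCommGroup Γ] [Fintype I] [DecidableEq I]
  [Fintype X] [DecidableEq X] [Inhabited X] {R : ℕ}

open Classical in
theorem sparse_of_peel (κ θ : ℕ) (hK : Fintype.card I ≤ θ) (F : Finset ((I → X) × Ln I X))
    (hF : ∀ e ∈ F, Inc e.1 e.2) (c0 : (I → X) → Ln I X → Prop)
    (h1 : ∀ a, (Finset.univ.filter (fun v => (a, v) ∈ F ∧ c0 a v)).card ≤ κ)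
    (h2 : ∀ v, (Finset.univ.filter (fun a => (a, v) ∈ F ∧ ¬ c0 a v)).card ≤ θ)
    (S : Set (Vx I X)) (hS : ∀ x y, (gr F).Adj x y → x ∈ S) (φ : Vx I X → Vx I X)
    (hφ : Set.InjOn φ S) : Sparse κ θ (Relation.Map (gr F).Adj φ φ) := by
  have hS' : ∀ x y, (gr F).Adj x y → y ∈ S := fun x y h => hS y x h.symm
  refine ⟨fun a v => ∃ a0 v0, (a0, v0) ∈ F ∧ c0 a0 v0 ∧ φ (inl a0) = inl a ∧ φ (inr v0) = inr v,
    ?_, ?_⟩
  · intro a
    by_cases hex : ∃ a0, inl a0 ∈ S ∧ φ (inl a0) = inl a
    · obtain ⟨a0, ha0, hφa⟩ := hex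
      refine le_trans ?_ (h1 a0)
      apply Finset.card_le_card_of_surjOn (fun v0 => Sum.elim (fun _ => v0) id (φ (inr v0)))
      intro v hv
      simp only [Finset.coe_filter, Set.mem_ofPred_eq, Finset.mem_univ, true_and] at hv
      obtain ⟨-, a1, v1, h3, h4, h5, h6⟩ := hv
      have : inl a1 = (inl a0 : Vx I X) :=
        hφ (hS _ (inr v1) (by simpa using h3)) ha0 (h5.trans hφa.symm)
      cases this
      refine ⟨v1, ?_, by simp [h6]⟩
      simp only [Finset.coe_filter, Set.mem_ofPred_eq, Finset.mem_univ, true_and]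
      exact ⟨h3, h4⟩
    · refine le_trans (le_of_eq ?_) (Nat.zero_le _)
      rw [Finset.card_eq_zero, Finset.eq_empty_iff_forall_notMem]
      intro v hv
      simp only [Finset.mem_filter, Finset.mem_univ, true_and] at hv
      obtain ⟨-, a1, v1, h3, h4, h5, h6⟩ := hv
      exact hex ⟨a1, hS _ (inr v1) (by simpa using h3), h5⟩
  · intro v
    by_cases hex : ∃ y, y ∈ S ∧ φ y = inr v
    · obtain ⟨y, hy, hφy⟩ := hex
      rcases y with a0 | v0
      · refine le_trans ?_ ((card_lines_le a0 (Finset.univ.filter (fun v0 => (a0, v0) ∈ F))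
          (fun v0 hv0 => hF _ (Finset.mem_filter.1 hv0).2)).trans hK)
        apply Finset.card_le_card_of_surjOn (fun v0 => Sum.elim id (fun _ => a0) (φ (inr v0)))
        intro a ha
        simp only [Finset.coe_filter, Set.mem_ofPred_eq, Finset.mem_univ, true_and] at ha
        obtain ⟨⟨x, y, h3, h4, h5⟩, -⟩ := ha
        have : y = inl a0 := hφ (hS' _ _ h3) hy (h5.trans hφy.symm)
        subst this
        rcases x with a1 | v1
        · simp at h3
        · refine ⟨v1, ?_, by simp [h4]⟩
          simpa using h3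
      · refine le_trans ?_ (h2 v0)
        apply Finset.card_le_card_of_surjOn (fun a0 => Sum.elim id (fun _ => a0) (φ (inl a0)))
        intro a ha
        simp only [Finset.coe_filter, Set.mem_ofPred_eq, Finset.mem_univ, true_and] at ha
        obtain ⟨⟨x, y, h3, h4, h5⟩, h6⟩ := ha
        have : y = inr v0 := hφ (hS' _ _ h3) hy (h5.trans hφy.symm)
        subst this
        rcases x with a1 | v1
        · refine ⟨a1, ?_, by simp [h4]⟩
          simp only [Finset.coe_filter, Set.mem_ofPred_eq, Finset.mem_univ, true_and]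
          have h7 : (a1, v0) ∈ F := by simpa using h3
          exact ⟨h7, fun hc => h6 ⟨a1, v0, h7, hc, h4, h5⟩⟩
        · simp at h3
    · refine le_trans (le_of_eq ?_) (Nat.zero_le _)
      rw [Finset.card_eq_zero, Finset.eq_empty_iff_forall_notMem]
      intro a ha
      simp only [Finset.mem_filter, Finset.mem_univ, true_and] at ha
      obtain ⟨⟨x, y, h3, h4, h5⟩, -⟩ := ha
      exact hex ⟨y, hS' _ _ h3, h5⟩

open Classical in
theorem fixed_of_hom (P : Finset (I → X)) (u : ℕ) (hu : 0 < u)
    (hP : ∀ G : Finset (Ln I X × Ln I X), G.Nonempty → ∀ Q ⊆ cand G,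
        (Q.image Prod.fst ∪ Q.image Prod.snd).card = 2 * Q.card →
        Q.image Prod.fst ∪ Q.image Prod.snd ⊆ P → Q.card < G.card * u)
    (F : Finset ((I → X) × Ln I X)) (hF : ∀ e ∈ F, e.1 ∈ P ∧ Inc e.1 e.2)
    (hpt : ∀ e ∈ F, 3 ≤ (Finset.univ.filter (fun v => (e.1, v) ∈ F)).card)
    (hln : ∀ e ∈ F, 3 * Fintype.card I * u + 1 ≤ (Finset.univ.filter (fun a => (a, e.2) ∈ F)).card)
    (S : Set (Vx I X)) (hS : ∀ x y, (gr F).Adj x y → x ∈ S) (φ : Vx I X → Vx I X)
    (hφ : Set.InjOn φ S) (hhom : ∀ x y, (gr F).Adj x y → (gr (EP P)).Adj (φ x) (φ y)) :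
    ∀ e ∈ F, φ (inl e.1) = inl e.1 ∧ φ (inr e.2) = inr e.2 := by
  have hl : ∀ e ∈ F, inl e.1 ∈ S := fun e he => hS _ (inr e.2) (by simpa using he)
  have hr : ∀ e ∈ F, inr e.2 ∈ S := fun e he => hS _ (inl e.1) (by simpa using he)
  have hadj : ∀ e ∈ F, (gr (EP P)).Adj (φ (inl e.1)) (φ (inr e.2)) :=
    fun e he => hhom _ _ (by simpa using he)
  have step1 : ∀ e ∈ F, ∃ w, φ (inr e.2) = inr w := by
    intro e he
    rcases hw : φ (inr e.2) with a' | w
    · exfalso
      have h1 := hln e he
      have h2 : ∀ a, (a, e.2) ∈ F → ∃ w, φ (inl a) = inr w ∧ Inc a' w := by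
        intro a ha
        have := hadj _ ha
        simp only [hw] at this
        rcases hx : φ (inl a) with b | w
        · rw [hx] at this; simp at this
        · rw [hx] at this
          refine ⟨w, rfl, ?_⟩
          have h3 : (a', w) ∈ EP P := by simpa only [gr_rl] using this
          exact ((mem_EP _ _).1 h3).2
      have h3 : (Finset.univ.filter (fun a => (a, e.2) ∈ F)).card
          ≤ (Finset.univ.filter (fun w => Inc a' w)).card := by
        apply Finset.card_le_card_of_injOn (fun a => Sum.elim (fun _ => e.2) id (φ (inl a)))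
        · intro a ha
          simp only [Finset.coe_filter, Set.mem_ofPred_eq, Finset.mem_univ, true_and] at ha ⊢
          obtain ⟨w, h4, h5⟩ := h2 a ha
          simpa [h4] using h5
        · intro a ha b hb hab
          simp only [Finset.coe_filter, Set.mem_ofPred_eq, Finset.mem_univ, true_and] at ha hb
          obtain ⟨w, h4, -⟩ := h2 a ha
          obtain ⟨w', h5, -⟩ := h2 b hb
          simp only [h4, h5, Sum.elim_inr, id] at hab
          have := hφ (hl _ ha) (hl _ hb) (by simp only [h4, h5, hab])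
          exact Sum.inl_injective this
      have h4 := card_lines_le a' (Finset.univ.filter (fun w => Inc a' w))
        (fun v hv => (Finset.mem_filter.1 hv).2)
      have h5 : Fintype.card I * 1 ≤ Fintype.card I * u := Nat.mul_le_mul_left _ hu
      have h6 : 3 * Fintype.card I * u = 3 * (Fintype.card I * u) := by ring
      omega
    · exact ⟨w, rfl⟩
  let β : Ln I X → Ln I X := fun v => Sum.elim (fun _ => v) id (φ (inr v))
  let α : (I → X) → (I → X) := fun a => Sum.elim id (fun _ => a) (φ (inl a))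
  have hβ : ∀ e ∈ F, φ (inr e.2) = inr (β e.2) := by
    intro e he
    obtain ⟨w, hw⟩ := step1 e he
    simp [β, hw]
  have hα : ∀ e ∈ F, φ (inl e.1) = inl (α e.1) := by
    intro e he
    have := hadj e he
    rw [hβ e he] at this
    rcases hx : φ (inl e.1) with b | w
    · simp [α, hx]
    · rw [hx] at this; simp at this
  have := rigid P u hP F hF hpt hln α β (by
    intro e he e' he' h
    have := hφ (hl e he) (hl e' he') (by rw [hα e he, hα e' he', h])
    exact Sum.inl_injective this) (by
    intro e he e' he' h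
    have := hφ (hr e he) (hr e' he') (by rw [hβ e he, hβ e' he', h])
    exact Sum.inr_injective this) (by
    intro e he
    have := hadj e he
    rw [hα e he, hβ e he] at this
    simpa using this)
  intro e he
  rw [hα e he, hβ e he, (this e he).1, (this e he).2]
  exact ⟨rfl, rfl⟩

open Classical in
theorem exists_index (lam : X → Idx Γ I X R → Bool) (P : Finset (I → X)) (κ θ D1 x0 C K' : ℕ)
    (hup : ∀ (v : Ln I X) (f : Fin C → Idx Γ I X R) (σ : Fin C → Bool), Function.Injective f →
      ((Finset.univ.filter (fun x => pt v x ∈ P)).filter (fun x => ∀ l, lam x (f l) = σ l)).card < x0)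
    (dflt : I → Γ) (hdflt : ∀ g, (Finset.univ.filter (fun i => dflt i = g)).card ≤ K')
    (hκ : Fintype.card Γ + Fintype.card Γ * Fintype.card Γ ≤ κ)
    (hθ : x0 + 2 + C * D1 ≤ θ) (hD1 : 0 < D1) (hRN : Fintype.card (Ln I X) * C < R)
    (F : Finset ((I → X) × Ln I X)) (hF : ∀ e ∈ F, e.1 ∈ P ∧ Inc e.1 e.2) (hne : F.Nonempty)
    (hcore : ∀ e ∈ F, κ ≤ (Finset.univ.filter (fun v => (e.1, v) ∈ F)).card ∧
      θ ≤ (Finset.univ.filter (fun a => (a, e.2) ∈ F)).card) :
    ∃ π : Idx Γ I X R, (∀ g, (Finset.univ.filter (fun i => π.2.2.1 i = g)).card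
        ≤ K' + (Fintype.card Γ + Fintype.card Γ * Fintype.card Γ)) ∧
      (∀ e ∈ F, ∀ b, D1 ≤ (Finset.univ.filter (fun a => (a, e.2) ∈ F ∧
        bit lam π e.2.dir (a e.2.dir) = b)).card) ∧
      ∀ c c', (∃ a, (a, π.2.2.2.1 (c, c')) ∈ F ∧ label lam π a = c) ∧
        (∃ a, (a, π.2.2.2.1 (c, c')) ∈ F ∧ label lam π a = c') := by
  obtain ⟨⟨a0, v0⟩, h0⟩ := hne
  let dirs : (I → X) → Finset I := fun a => Finset.univ.filter (fun i => (a, ln a i) ∈ F)
  have hdirs : ∀ e ∈ F, κ ≤ (dirs e.1).card := by
    intro e he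
    refine (hcore e he).1.trans ?_
    apply Finset.card_le_card_of_injOn Ln.dir
    · intro v hv
      simp only [Finset.coe_filter, Set.mem_ofPred_eq, Finset.mem_univ, true_and, dirs] at hv ⊢
      rw [ln_dir (hF _ hv).2]; exact hv
    · intro v hv v' hv' h
      simp only [Finset.coe_filter, Set.mem_ofPred_eq, Finset.mem_univ, true_and] at hv hv'
      exact eq_of_dir (hF _ hv).2 (hF _ hv').2 h
  obtain ⟨ic, hic, hic'⟩ := exists_inj_choice (J := Γ) (fun _ => dirs a0)
    (fun _ => le_trans (by omega) (hdirs _ h0))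
  have hicF : ∀ c, (a0, ln a0 (ic c)) ∈ F := fun c => (Finset.mem_filter.1 (hic' c)).2
  have hp : ∀ c, ∃ p, (p, ln a0 (ic c)) ∈ F ∧ p ≠ a0 := by
    intro c
    have h1 := (hcore _ (hicF c)).2
    have h2 : 1 < (Finset.univ.filter (fun a => (a, ln a0 (ic c)) ∈ F)).card := by
      simp only at h1; omega
    obtain ⟨p, hp, q, hq, hpq⟩ := Finset.one_lt_card.1 h2
    simp only [Finset.mem_filter, Finset.mem_univ, true_and] at hp hq
    by_cases h : p = a0
    · exact ⟨q, hq, fun h' => hpq (h.trans h'.symm)⟩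
    · exact ⟨p, hp, h⟩
  choose p hpF hpne using hp
  have hpj : ∀ c j, j ≠ ic c → p c j = a0 j := by
    intro c j hj
    have h1 := (hF _ (hpF c)).2 j hj
    have h2 := inc_ln a0 (ic c) j hj
    exact h1.trans h2.symm
  have hpi : ∀ c, p c (ic c) ≠ a0 (ic c) := by
    intro c h
    apply hpne c
    funext j
    by_cases hj : j = ic c
    · rw [hj]; exact h
    · exact hpj c j hj
  obtain ⟨dd, hdd, hdd'⟩ := exists_inj_choice (J := Γ × Γ)
    (fun cc => dirs (p cc.1) \ Finset.univ.image ic) (by
      intro cc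
      have h1 := hdirs _ (hpF cc.1)
      have h2 := Finset.le_card_sdiff (Finset.univ.image ic) (dirs (p cc.1))
      have h3 : (Finset.univ.image ic).card ≤ Fintype.card Γ := Finset.card_image_le
      simp only [Fintype.card_prod] at h1 ⊢
      omega)
  have hddF : ∀ cc, (p cc.1, ln (p cc.1) (dd cc)) ∈ F :=
    fun cc => (Finset.mem_filter.1 (Finset.mem_sdiff.1 (hdd' cc)).1).2
  have hddic : ∀ cc c, dd cc ≠ ic c := fun cc c h =>
    (Finset.mem_sdiff.1 (hdd' cc)).2 (Finset.mem_image.2 ⟨c, Finset.mem_univ _, h.symm⟩)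
  let y : I → X := Function.extend ic (fun c => p c (ic c)) (fun _ => default)
  let w : I → Γ := Function.extend ic id (Function.extend dd (fun cc => cc.2 - cc.1) dflt)
  let z : Γ × Γ → Ln I X := fun cc => ln (p cc.1) (dd cc)
  have hy : ∀ c, y (ic c) = p c (ic c) := fun c => hic.extend_apply _ _ _
  have hw1 : ∀ c, w (ic c) = c := fun c => hic.extend_apply _ _ _
  have hw2 : ∀ cc, w (dd cc) = cc.2 - cc.1 := by
    intro cc
    simp only [w]
    rw [Function.extend_apply' _ _ _ (by rintro ⟨c, hc⟩; exact hddic cc c hc.symm)]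
    exact hdd.extend_apply _ _ _
  have hw3 : ∀ g, (Finset.univ.filter (fun i => w i = g)).card
      ≤ K' + (Fintype.card Γ + Fintype.card Γ * Fintype.card Γ) := by
    intro g
    have hsub : Finset.univ.filter (fun i => w i = g) ⊆ Finset.univ.filter (fun i => dflt i = g) ∪
        (Finset.univ.image ic ∪ Finset.univ.image dd) := by
      intro i hi
      simp only [Finset.mem_filter, Finset.mem_univ, true_and, Finset.mem_union,
        Finset.mem_image] at hi ⊢
      by_cases h1 : ∃ c, ic c = i
      · exact Or.inr (Or.inl h1)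
      by_cases h2 : ∃ cc, dd cc = i
      · exact Or.inr (Or.inr h2)
      left
      simp only [w] at hi
      rwa [Function.extend_apply' _ _ _ h1, Function.extend_apply' _ _ _ h2] at hi
    refine (Finset.card_le_card hsub).trans ((Finset.card_union_le _ _).trans ?_)
    apply Nat.add_le_add (hdflt g) ((Finset.card_union_le _ _).trans _)
    apply Nat.add_le_add Finset.card_image_le
    simpa using Finset.card_image_le (s := Finset.univ) (f := dd)
  let πr : Fin R → Idx Γ I X R := fun r => (a0, y, w, z, r)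
  let Bad : Ln I X → Fin R → Prop := fun v r => ∃ b, (Finset.univ.filter (fun a => (a, v) ∈ F ∧
        bit lam (πr r) v.dir (a v.dir) = b)).card < D1
  have hBad : ∀ e ∈ F, (Finset.univ.filter (fun r => Bad e.2 r)).card ≤ C := by
    rintro ⟨a1, v⟩ he
    by_contra hc
    push Not at hc
    obtain ⟨g, hg, hg'⟩ := exists_inj_choice (J := Fin C)
      (fun _ => Finset.univ.filter (fun r => Bad v r)) (fun _ => by simpa using hc.le)
    have hb : ∀ l, Bad v (g l) := fun l => (Finset.mem_filter.1 (hg' l)).2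
    choose b hb using hb
    have h1 := hup v (fun l => πr (g l)) (fun l => !(b l)) (by
      intro l l' h
      apply hg
      exact congrArg (fun π : Idx Γ I X R => π.2.2.2.2) h)
    have h2 := (hcore _ he).2
    simp only at h2
    have hsub : Finset.univ.filter (fun a => (a, v) ∈ F) ⊆
        (((Finset.univ.filter (fun x => pt v x ∈ P)).filter
          (fun x => ∀ l, lam x (πr (g l)) = !(b l))) ∪ {a0 v.dir, y v.dir}).image (pt v) ∪
        Finset.univ.biUnion (fun l => Finset.univ.filter (fun a => (a, v) ∈ F ∧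
          bit lam (πr (g l)) v.dir (a v.dir) = b l)) := by
      intro a ha
      simp only [Finset.mem_filter, Finset.mem_univ, true_and] at ha
      have hi : Inc a v := (hF _ ha).2
      by_cases h3 : ∃ l, bit lam (πr (g l)) v.dir (a v.dir) = b l
      · obtain ⟨l, hl⟩ := h3
        apply Finset.mem_union_right
        exact Finset.mem_biUnion.2 ⟨l, Finset.mem_univ _, by simp [ha, hl]⟩
      · push Not at h3
        apply Finset.mem_union_left
        refine Finset.mem_image.2 ⟨a v.dir, ?_, pt_eq hi⟩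
        by_cases h4 : a v.dir = a0 v.dir
        · simp [h4]
        by_cases h5 : a v.dir = y v.dir
        · simp [h5]
        apply Finset.mem_union_left
        simp only [Finset.mem_filter, Finset.mem_univ, true_and, pt_eq hi]
        refine ⟨(hF _ ha).1, fun l => ?_⟩
        have := h3 l
        simp only [bit, πr, h4, h5, if_false] at this
        exact Bool.eq_not_iff.2 this
    have h6 := Finset.card_le_card hsub
    have h7 := Finset.card_union_le ((((Finset.univ.filter (fun x => pt v x ∈ P)).filter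
          (fun x => ∀ l, lam x (πr (g l)) = !(b l))) ∪ {a0 v.dir, y v.dir}).image (pt v))
        (Finset.univ.biUnion (fun l => Finset.univ.filter (fun a => (a, v) ∈ F ∧
          bit lam (πr (g l)) v.dir (a v.dir) = b l)))
    have h8 := Finset.card_image_le (s := ((Finset.univ.filter (fun x => pt v x ∈ P)).filter
          (fun x => ∀ l, lam x (πr (g l)) = !(b l))) ∪ {a0 v.dir, y v.dir}) (f := pt v)
    have h9 := Finset.card_union_le ((Finset.univ.filter (fun x => pt v x ∈ P)).filter
          (fun x => ∀ l, lam x (πr (g l)) = !(b l))) {a0 v.dir, y v.dir}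
    have h10 : ({a0 v.dir, y v.dir} : Finset X).card ≤ 2 := Finset.card_le_two
    have h11 := Finset.card_biUnion_le_card_mul (Finset.univ : Finset (Fin C))
      (fun l => Finset.univ.filter (fun a => (a, v) ∈ F ∧
          bit lam (πr (g l)) v.dir (a v.dir) = b l)) D1 (fun l _ => (hb l).le)
    simp only [Finset.card_univ, Fintype.card_fin] at h11
    omega
  obtain ⟨r, hr⟩ : ∃ r : Fin R, ∀ e ∈ F, ¬ Bad e.2 r := by
    by_contra hc
    push Not at hc
    have hsub : (Finset.univ : Finset (Fin R)) ⊆ (F.image Prod.snd).biUnion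
        (fun v => Finset.univ.filter (fun r => Bad v r)) := by
      intro r _
      obtain ⟨e, he, hb⟩ := hc r
      exact Finset.mem_biUnion.2 ⟨e.2, Finset.mem_image.2 ⟨e, he, rfl⟩, by simpa using hb⟩
    have h1 := Finset.card_le_card hsub
    have h2 := Finset.card_biUnion_le_card_mul (F.image Prod.snd)
      (fun v => Finset.univ.filter (fun r => Bad v r)) C (by
        intro v hv
        obtain ⟨e, he, rfl⟩ := Finset.mem_image.1 hv
        exact hBad e he)
    have h3 : (F.image Prod.snd).card * C ≤ Fintype.card (Ln I X) * C :=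
      Nat.mul_le_mul_right _ (Finset.card_le_univ _)
    simp only [Finset.card_univ, Fintype.card_fin] at h1
    omega
  have hgood : ∀ e ∈ F, ∀ b, D1 ≤ (Finset.univ.filter (fun a => (a, e.2) ∈ F ∧
      bit lam (πr r) e.2.dir (a e.2.dir) = b)).card := by
    intro e he b
    by_contra h
    exact hr e he ⟨b, not_le.1 h⟩
  have hlab : ∀ c, label lam (πr r) (p c) = c := by
    intro c
    unfold label
    rw [Finset.sum_eq_single (ic c)]
    · have : bit lam (πr r) (ic c) (p c (ic c)) = true := by
        simp [bit, πr, hpi c, hy c]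
      rw [this]
      simp [πr, hw1]
    · intro j _ hj
      have : bit lam (πr r) j (p c j) = false := by
        simp [bit, πr, hpj c j hj]
      rw [this]; simp
    · simp
  refine ⟨πr r, hw3, hgood, fun c c' => ⟨⟨p c, hddF (c, c'), hlab c⟩, ?_⟩⟩
  have h1 := hgood _ (hddF (c, c')) true
  obtain ⟨a, ha⟩ := Finset.card_pos.1 (lt_of_lt_of_le hD1 h1)
  simp only [Finset.mem_filter, Finset.mem_univ, true_and, dir_ln] at ha
  refine ⟨a, ha.1, ?_⟩
  have l1 := label_eq lam (πr r) (hF _ ha.1).2
  have l2 := label_eq lam (πr r) (hF _ (hddF (c, c'))).2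
  simp only [dir_ln] at l1 l2
  have h2 : bit lam (πr r) (dd (c, c')) (p c (dd (c, c'))) = false := by
    simp [bit, πr, hpj c _ (hddic (c, c') c)]
  rw [h2, hlab c] at l2
  rw [ha.2] at l1
  simp only [Bool.false_eq_true, if_false, add_zero, if_true] at l1 l2
  rw [l1, ← l2]
  simp only [πr, hw2]
  abel

end

end Pool.Agent.MP_1da87e_co
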