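import Pool.Agent.MP_1da87e_co.Exists
import Pool.Agent.MP_1da87e_co.Defs

/-! Assembling the levels. -/

namespace Pool.Agent.MP_1da87e_co

noncomputable def lv (k n0 : ℕ) : Level k n0 := Classical.choice (nonempty_level k n0)

noncomputable def sz : ℕ → ℕ
  | 0 => 0
  | k + 1 => Fintype.card (lv k (sz k)).V

noncomputable abbrev LL (k : ℕ) : Level k (sz k) := lv k (sz k)

lemma sz_succ (k : ℕ) : sz (k + 1) = Fintype.card (LL k).V := rfl

lemma sz_strictMono : StrictMono sz := strictMono_nat_of_lt_succ fun k => (LL k).big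

def GoodAt (k : ℕ) {W : Type} (G : SimpleGraph W) : Prop :=
  ∀ φ : W → (LL k).V, Function.Injective φ → (∀ x y, G.Adj x y → (LL k).H.Adj (φ x) (φ y)) →
    (LL k).OK (Set.range φ) (Relation.Map G.Adj φ φ)

def guests : GClass := fun _ G => ∀ k, GoodAt k G

lemma goodAt_small {k m : ℕ} (G : SimpleGraph (Fin m)) (h : m ≤ sz k) : GoodAt k G := by
  intro φ hφ _
  apply (LL k).small
  · rintro x y ⟨a, b, -, -, rfl⟩
    exact ⟨b, rfl⟩
  · rw [Set.ncard_range_of_injective hφ]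
    simpa using h

lemma goodAt_large {k m : ℕ} (G : SimpleGraph (Fin m)) (h : sz (k + 1) < m) : GoodAt k G := by
  intro φ hφ _
  have := Fintype.card_le_of_injective φ hφ
  rw [sz_succ] at h
  simp only [Fintype.card_fin] at this
  omega

lemma guests_of_level {k m : ℕ} (G : SimpleGraph (Fin m)) (h1 : sz k < m) (h2 : m ≤ sz (k + 1))
    (h : GoodAt k G) : guests m G := by
  intro k'
  rcases lt_trichotomy k' k with hk | rfl | hk
  · exact goodAt_large G (lt_of_le_of_lt (sz_strictMono.monotone hk) h1)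
  · exact h
  · exact goodAt_small G (h2.trans (sz_strictMono.monotone hk))

lemma isoClosed_guests : IsoClosed guests := by
  rintro m n G H ⟨e⟩ hG k φ hφ hhom
  have h := hG k (φ ∘ e) (hφ.comp e.injective) (fun x y hxy => hhom _ _ (e.map_adj_iff.2 hxy))
  have e1 : Set.range (φ ∘ e) = Set.range φ := e.surjective.range_comp φ
  have e2 : Relation.Map G.Adj (φ ∘ e) (φ ∘ e) = Relation.Map H.Adj φ φ := by
    ext u v
    constructor
    · rintro ⟨a, b, h1, h2, h3⟩
      exact ⟨e a, e b, e.map_adj_iff.2 h1, h2, h3⟩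
    · rintro ⟨a, b, h1, h2, h3⟩
      exact ⟨e.symm a, e.symm b, e.symm.map_adj_iff.2 h1, by simpa using h2, by simpa using h3⟩
  rwa [e1, e2] at h

lemma cl_le_of_guest {m : ℕ} (X : SimpleGraph (Fin m)) (h : guests m X) : cl guests X ≤ 3 := by
  refine sInf_le ⟨3, 1, fun _ => m, fun _ => X, fun _ => SimpleGraph.Hom.id,
    ⟨one_pos, fun _ => h, fun _ => Function.injective_id, fun u v huv => ⟨0, u, v, huv, rfl, rfl⟩⟩,
    ?_, rfl⟩
  intro v
  refine le_trans ((Set.ncard_le_one (Set.toFinite _)).2 ?_) (by norm_num)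
  rintro ⟨i, a⟩ ha ⟨j, b⟩ hb
  have e1 : a = v := ha
  have e2 : b = v := hb
  have e3 : i = j := Subsingleton.elim _ _
  subst e1 e3
  rw [e2]

lemma exists_level {m : ℕ} (hm : 0 < m) : ∃ k, sz k < m ∧ m ≤ sz (k + 1) := by
  have h : ∃ k, m ≤ sz (k + 1) := ⟨m, (sz_strictMono.le_apply).trans (sz_strictMono.monotone (Nat.le_succ m))⟩
  classical
  refine ⟨Nat.find h, ?_, Nat.find_spec h⟩
  rcases hk : Nat.find h with _ | k
  · exact hm
  · exact not_le.1 (Nat.find_min h (by omega))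

theorem cl_le_three {m : ℕ} (X : SimpleGraph (Fin m)) : cl guests X ≤ 3 := by
  classical
  rcases Nat.eq_zero_or_pos m with rfl | hm
  · exact cl_le_of_guest X (fun k => goodAt_small X (Nat.zero_le _))
  obtain ⟨k, hk1, hk2⟩ := exists_level hm
  by_cases hG : GoodAt k X
  · exact cl_le_of_guest X (guests_of_level X hk1 hk2 hG)
  unfold GoodAt at hG
  push Not at hG
  obtain ⟨ψ, hψ, hhom, -⟩ := hG
  have : Nonempty (Fin m) := ⟨⟨0, hm⟩⟩
  let Xg : SimpleGraph (LL k).V :=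
    { Adj := Relation.Map X.Adj ψ ψ
      symm := ⟨by
        rintro x y ⟨a, b, h, rfl, rfl⟩
        exact ⟨b, a, h.symm, rfl, rfl⟩⟩
      loopless := ⟨by
        rintro x ⟨a, b, h, h1, h2⟩
        exact h.ne (hψ (h1.trans h2.symm))⟩ }
  obtain ⟨ι, _, _, S, Rg, hle, hsub, hsupp, hcov, hloc, hgood⟩ := (LL k).lower Xg (by
    rintro x y ⟨a, b, h, rfl, rfl⟩
    exact hhom a b h) (Finset.univ.image ψ) (by
    rintro x y ⟨a, b, h, rfl, rfl⟩
    simp) (by
    rw [Finset.card_image_of_injective _ hψ]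
    simpa using hk1)
  let σ := (Fintype.equivFin ι).symm
  let e : ∀ i, Fin (S i).card → (LL k).V := fun i a => ((S i).equivFin.symm a : (LL k).V)
  have he : ∀ i, Function.Injective (e i) := fun i a b h =>
    (S i).equivFin.symm.injective (Subtype.ext h)
  have heS : ∀ i a, e i a ∈ S i := fun i a => ((S i).equivFin.symm a).2
  have heS' : ∀ i x, x ∈ S i → ∃ a, e i a = x := fun i x hx =>
    ⟨(S i).equivFin ⟨x, hx⟩, by simp [e]⟩
  have hinv : ∀ x, Function.invFun ψ (ψ x) = x := Function.leftInverse_invFun hψ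
  have hinv' : ∀ i a, ψ (Function.invFun ψ (e i a)) = e i a := by
    intro i a
    obtain ⟨x, -, hx⟩ := Finset.mem_image.1 (hsub i (heS i a))
    rw [← hx, hinv]
  let φ : ∀ i, (Rg i).comap (e i) →g X := fun i =>
    { toFun := fun a => Function.invFun ψ (e i a)
      map_rel' := by
        intro a b hab
        obtain ⟨x, y, h, h1, h2⟩ := hle i hab
        rw [← h1, ← h2, hinv, hinv]
        exact h }
  have hφ : ∀ i a, φ i a = Function.invFun ψ (e i a) := fun _ _ => rfl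
  refine sInf_le ⟨3, Fintype.card ι, fun j => (S (σ j)).card, fun j => (Rg (σ j)).comap (e (σ j)),
    fun j => φ (σ j), ⟨Fintype.card_pos, ?_, ?_, ?_⟩, ?_, rfl⟩
  · intro j
    set i := σ j
    apply guests_of_level _ (hgood i).1 (Finset.card_le_univ _)
    intro χ hχ hχhom
    let χ' : (LL k).V → (LL k).V := Function.extend (e i) χ id
    have hχ' : ∀ a, χ' (e i a) = χ a := fun a => (he i).extend_apply _ _ _
    have h := (hgood i).2 χ' (by
      intro x hx y hy hxy
      obtain ⟨a, rfl⟩ := heS' i x hx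
      obtain ⟨b, rfl⟩ := heS' i y hy
      rw [hχ', hχ'] at hxy
      rw [hχ hxy]) (by
      intro x y hxy
      obtain ⟨a, rfl⟩ := heS' i x (hsupp i x y hxy)
      obtain ⟨b, rfl⟩ := heS' i y (hsupp i y _ hxy.symm)
      rw [hχ', hχ']
      exact hχhom a b hxy)
    have e1 : χ' '' (S i) = Set.range χ := by
      ext z
      constructor
      · rintro ⟨x, hx, rfl⟩
        obtain ⟨a, rfl⟩ := heS' i x hx
        exact ⟨a, (hχ' a).symm⟩
      · rintro ⟨a, rfl⟩
        exact ⟨e i a, heS i a, hχ' a⟩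
    have e2 : Relation.Map (Rg i).Adj χ' χ' = Relation.Map ((Rg i).comap (e i)).Adj χ χ := by
      ext u v
      constructor
      · rintro ⟨x, y, hxy, rfl, rfl⟩
        obtain ⟨a, rfl⟩ := heS' i x (hsupp i x y hxy)
        obtain ⟨b, rfl⟩ := heS' i y (hsupp i y _ hxy.symm)
        exact ⟨a, b, hxy, (hχ' a).symm, (hχ' b).symm⟩
      · rintro ⟨a, b, hab, rfl, rfl⟩
        exact ⟨e i a, e i b, hab, hχ' a, hχ' b⟩
    rwa [e1, e2] at h
  · intro j a b hab
    apply he (σ j)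
    rw [← hinv' _ a, ← hinv' _ b]
    exact congrArg ψ hab
  · intro u v huv
    obtain ⟨i, hi⟩ := hcov (ψ u) (ψ v) ⟨u, v, huv, rfl, rfl⟩
    obtain ⟨j, rfl⟩ := σ.surjective i
    obtain ⟨a, ha⟩ := heS' _ _ (hsupp _ _ _ hi)
    obtain ⟨b, hb⟩ := heS' _ _ (hsupp _ _ _ hi.symm)
    refine ⟨j, a, b, ?_, ?_, ?_⟩
    · simp only [SimpleGraph.comap_adj, ha, hb, hi]
    · rw [hφ, ha, hinv]
    · rw [hφ, hb, hinv]
  · intro v
    refine le_trans ?_ (hloc (ψ v))
    apply Set.ncard_le_ncard_of_injOn (fun p => σ p.1)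
    · rintro ⟨j, a⟩ ha
      have h1 : Function.invFun ψ (e (σ j) a) = v := ha
      show ψ v ∈ S (σ j)
      rw [← h1, hinv']
      exact heS _ _
    · rintro ⟨j, a⟩ ha ⟨j', b⟩ hb hj
      have h0 : j = j' := σ.injective hj
      subst h0
      have h1 : Function.invFun ψ (e (σ j) a) = v := ha
      have h2 : Function.invFun ψ (e (σ j) b) = v := hb
      have : a = b := by
        apply he (σ j)
        rw [← hinv' _ a, ← hinv' _ b, h1, h2]
      rw [this]

noncomputable def host (k : ℕ) : SimpleGraph (Fin (Fintype.card (LL k).V)) :=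
  (LL k).H.comap (Fintype.equivFin (LL k).V).symm

lemma host_bip (k : ℕ) : (host k).IsBipartite :=
  (LL k).bip.of_hom (SimpleGraph.Hom.comap _ _)

theorem le_cu_host (k : ℕ) : (k : ℕ∞) ≤ cu guests (host k) := by
  apply le_sInf
  rintro _ ⟨t, n, U, φ, ⟨-, hU, hinj, hcov⟩, rfl⟩
  by_contra hlt
  have htk : t ≤ k := by
    have := not_le.1 hlt
    exact_mod_cast this.le
  choose r m G e hG hadj using hU
  let g := (Fintype.equivFin (LL k).V).symm
  let χ : ∀ j : (Σ i, Fin (r i)), Fin (m j.1 j.2) → (LL k).V :=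
    fun j a => g (φ j.1 (e j.1 ⟨j.2, a⟩))
  obtain ⟨x, y, hxy, hno⟩ := (LL k).upper (J := Σ i, Fin (r i)) (fun j => Fin.castLE htk j.1)
    (fun j => Set.range (χ j)) (fun j => Relation.Map (G j.1 j.2).Adj (χ j) (χ j)) (by
      rintro j x y ⟨a, b, -, rfl, rfl⟩
      exact ⟨⟨a, rfl⟩, ⟨b, rfl⟩⟩) (by
      rintro ⟨i, j⟩ ⟨i', j'⟩ x h ⟨a, ha⟩ ⟨b, hb⟩
      have h0 : i = i' := Fin.castLE_injective htk h
      subst h0
      have h1 := (e i).injective (hinj i (g.injective (ha.trans hb.symm)))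
      have h2 : j = j' := congrArg Sigma.fst h1
      rw [h2]) (by
      rintro ⟨i, j⟩
      apply hG i j k
      · intro a b h
        have h1 := (e i).injective (hinj i (g.injective h))
        simpa using h1
      · intro a b hab
        exact (φ i).map_rel ((hadj i _ _).2 ⟨j, a, b, hab, rfl, rfl⟩))
  obtain ⟨i, a, b, hab, ha, hb⟩ := hcov (g.symm x) (g.symm y) (by
    simpa [host, g] using hxy)
  obtain ⟨j, a', b', h, rfl, rfl⟩ := (hadj i _ _).1 hab
  apply hno ⟨i, j⟩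
  exact ⟨a', b', h, by simp [χ, ha], by simp [χ, hb]⟩

theorem main : ∃ ℋ 𝒢 : GClass, IsoClosed ℋ ∧ IsoClosed 𝒢 ∧ Hereditary ℋ ∧
    (∀ n H, ℋ n H ↔ H.IsBipartite) ∧
    (⨆ (n : ℕ) (H : SimpleGraph (Fin n)) (_ : ℋ n H), cl 𝒢 H) ≤ 3 ∧
    (⨆ (n : ℕ) (H : SimpleGraph (Fin n)) (_ : ℋ n H), cu 𝒢 H) = ⊤ := by
  refine ⟨fun _ H => H.IsBipartite, guests, ?_, isoClosed_guests, ?_, fun _ _ => Iff.rfl, ?_, ?_⟩
  · rintro m n G H ⟨e⟩ h
    exact SimpleGraph.Colorable.of_hom e.symm.toHom h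
  · rintro m n G H ⟨e⟩ h
    exact SimpleGraph.Colorable.of_hom e.toHom h
  · exact iSup_le fun n => iSup_le fun H => iSup_le fun _ => cl_le_three H
  · rw [ENat.eq_top_iff_forall_ge]
    intro k
    exact (le_cu_host k).trans (le_iSup_of_le _ (le_iSup_of_le (host k) (le_iSup_of_le (host_bip k) le_rfl)))

end Pool.Agent.MP_1da87e_co
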