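import Mathlib

/-! Counting form of the first moment method with moment generating functions. -/

namespace Pool.Agent.MP_1da87e_co

open Finset

/-- Average of a real function over a finite type. -/
noncomputable def ex {Ω : Type} [Fintype Ω] (f : Ω → ℝ) : ℝ := (∑ ω, f ω) / Fintype.card Ω

lemma ex_sum {Ω β : Type} [Fintype Ω] (s : Finset β) (f : β → Ω → ℝ) :
    ex (fun ω => ∑ b ∈ s, f b ω) = ∑ b ∈ s, ex (f b) := by
  unfold ex
  rw [Finset.sum_comm, Finset.sum_div]

lemma ex_add {Ω : Type} [Fintype Ω] (f g : Ω → ℝ) :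
    ex (fun ω => f ω + g ω) = ex f + ex g := by
  unfold ex
  rw [Finset.sum_add_distrib, add_div]

lemma ex_mul {Ω : Type} [Fintype Ω] (c : ℝ) (f : Ω → ℝ) :
    ex (fun ω => c * f ω) = c * ex f := by
  unfold ex
  rw [← Finset.mul_sum, mul_div_assoc]

lemma exists_lt_one {Ω : Type} [Fintype Ω] [Nonempty Ω] (f : Ω → ℝ) (h : ex f < 1) :
    ∃ ω, f ω < 1 := by
  by_contra hc
  push Not at hc
  have hpos : (0 : ℝ) < Fintype.card Ω := by exact_mod_cast Fintype.card_pos
  have : (Fintype.card Ω : ℝ) ≤ ∑ ω, f ω := by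
    calc (Fintype.card Ω : ℝ) = ∑ _ω : Ω, (1 : ℝ) := by simp
      _ ≤ _ := Finset.sum_le_sum fun ω _ => hc ω
  unfold ex at h
  rw [div_lt_one hpos] at h
  linarith

lemma mgf {ι α : Type} [Fintype ι] [DecidableEq ι] [Fintype α] [DecidableEq α] [Nonempty α]
    (S : Finset ι) (E : Finset α) (y : ℝ) :
    ex (fun ω : ι → α => y ^ (S.filter (fun x => ω x ∈ E)).card)
      = (1 + (E.card / Fintype.card α : ℝ) * (y - 1)) ^ S.card := by
  have hpos : (0 : ℝ) < Fintype.card α := by exact_mod_cast Fintype.card_pos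
  set g : ι → α → ℝ := fun x a => if x ∈ S ∧ a ∈ E then y else 1 with hg
  have h1 : ∀ ω : ι → α, y ^ (S.filter (fun x => ω x ∈ E)).card = ∏ x, g x (ω x) := by
    intro ω
    simp only [hg]
    rw [Finset.prod_ite]
    simp only [Finset.prod_const, one_pow, mul_one]
    congr 2
    ext x; simp
  have h2 : ∑ ω : ι → α, ∏ x, g x (ω x) = ∏ x, ∑ a, g x a := by
    rw [Finset.prod_univ_sum]; simp
  have h3 : ∀ x, ∑ a, g x a = Fintype.card α *
      (if x ∈ S then (1 + (E.card / Fintype.card α : ℝ) * (y - 1)) else 1) := by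
    intro x
    by_cases hx : x ∈ S
    · simp only [hg, hx, true_and, if_true]
      rw [Finset.sum_ite]
      simp only [Finset.sum_const, nsmul_eq_mul, mul_one]
      have e1 : (Finset.univ.filter (fun a => a ∈ E)) = E := by ext a; simp
      have e2 : ((Finset.univ.filter (fun a => a ∉ E)).card : ℝ) = Fintype.card α - E.card := by
        have : (Finset.univ.filter (fun a => a ∉ E)) = Eᶜ := by ext a; simp
        rw [this, Finset.card_compl, Nat.cast_sub (Finset.card_le_univ E)]
      rw [e1, e2]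
      field_simp
      ring
    · simp [hg, hx]
  unfold ex
  simp only [h1]
  rw [h2]
  simp only [h3]
  rw [Finset.prod_mul_distrib, Finset.prod_const, Finset.prod_ite]
  simp only [Finset.prod_const, one_pow, mul_one, Fintype.card_fun, Finset.card_univ]
  have : (Finset.univ.filter (fun x => x ∈ S)) = S := by ext x; simp
  rw [this]
  push_cast
  field_simp

lemma sum_pow_card_powerset {β : Type} [DecidableEq β] (s : Finset β) (y : ℝ) :
    ∑ t ∈ s.powerset, y ^ t.card = (1 + y) ^ s.card := by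
  have := Finset.prod_one_add (f := fun _ : β => y) s
  simp only [Finset.prod_const] at this
  exact this.symm

lemma one_add_pow_le_exp' (y : ℝ) (hy : -1 ≤ y) (n : ℕ) : (1 + y) ^ n ≤ Real.exp (n * y) := by
  rw [Real.exp_nat_mul]
  apply pow_le_pow_left₀ (by linarith)
  linarith [Real.add_one_le_exp y]

/-- the event set: Boolean vectors with prescribed values along `f`. -/
lemma card_pattern {M : Type} [Fintype M] [DecidableEq M] {k : ℕ} (f : Fin k → M) (s : M → Bool) :
    ((Finset.univ.filter (fun β : M → Bool => ∀ l, β (f l) = s (f l))).card : ℝ)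
      / Fintype.card (M → Bool) = (1 / 2 : ℝ) ^ (Finset.univ.image f).card := by
  have h := mgf (ι := M) (α := Bool) (Finset.univ.image f) ∅ 0
  have key : ∀ (T : Finset M), ((Finset.univ.filter (fun β : M → Bool => ∀ m ∈ T, β m = s m)).card : ℝ)
      / Fintype.card (M → Bool) = (1 / 2 : ℝ) ^ T.card := by
    intro T
    have e : (Finset.univ.filter (fun β : M → Bool => ∀ m ∈ T, β m = s m))
        = Fintype.piFinset (fun m => if m ∈ T then {s m} else Finset.univ) := by
      ext β
      simp only [Finset.mem_filter, Finset.mem_univ, true_and, Fintype.mem_piFinset]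
      constructor
      · intro h m
        by_cases hm : m ∈ T
        · simp [hm, h m hm]
        · simp [hm]
      · intro h m hm
        have := h m
        simpa [hm] using this
    rw [e, Fintype.card_piFinset, Fintype.card_fun]
    push_cast
    have : (2 : ℝ) ^ Fintype.card M = ∏ _m : M, (2 : ℝ) := by simp
    simp only [Fintype.card_bool, Nat.cast_ofNat]
    rw [this, ← Finset.prod_div_distrib]
    have : ∀ m : M, (((if m ∈ T then ({s m} : Finset Bool) else Finset.univ).card : ℝ) / 2)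
        = if m ∈ T then (1 / 2 : ℝ) else 1 := by
      intro m
      by_cases hm : m ∈ T <;> simp [hm]
    simp only [this]
    rw [Finset.prod_ite]
    simp
  rw [← key]
  congr 3
  ext β
  simp

/-- Stage 2: Boolean labels in general position on a family of sets. -/
theorem exists_labels {X M B : Type} [Fintype X] [DecidableEq X] [Fintype M] [DecidableEq M]
    [Fintype B] (S : B → Finset X) (k C u D x0 : ℕ)
    (hS : ∀ v, (S v).card ≤ 3 * D) (hx0 : 4 * D ≤ C * x0) (huD : u ≤ D)
    (hnum : (Fintype.card B : ℝ) * ((2 * Fintype.card M) ^ k + (2 * Fintype.card M) ^ C) < 2 ^ u) :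
    ∃ lam : X → M → Bool,
      (∀ v (f : Fin k → M) (s : M → Bool),
        (S v).card ≤ 2 ^ (k + 1) * ((S v).filter (fun x => ∀ l, lam x (f l) = s (f l))).card
          + 2 ^ (k + 1) * u) ∧
      (∀ v (f : Fin C → M) (σ : Fin C → Bool), Function.Injective f →
        ((S v).filter (fun x => ∀ l, lam x (f l) = σ l)).card < x0) := by
  classical
  set η : ℝ := (1 / 2) ^ (k + 1) with hη
  have hηpos : 0 < η := by positivity
  let Ev : ∀ {n : ℕ}, (Fin n → M) → (Fin n → Bool) → Finset (M → Bool) :=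
    fun f σ => Finset.univ.filter (fun β => ∀ l, β (f l) = σ l)
  let Y : ∀ {n : ℕ}, B → (Fin n → M) → (Fin n → Bool) → (X → M → Bool) → ℕ :=
    fun v f σ ω => ((S v).filter (fun x => ω x ∈ Ev f σ)).card
  let I1 : Finset (B × (Fin k → M) × (Fin k → Bool)) :=
    Finset.univ.filter (fun b => ∃ s : M → Bool, b.2.2 = s ∘ b.2.1)
  let I2 : Finset (B × (Fin C → M) × (Fin C → Bool)) :=
    Finset.univ.filter (fun b => Function.Injective b.2.1)
  let F1 : B × (Fin k → M) × (Fin k → Bool) → (X → M → Bool) → ℝ :=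
    fun b ω => Real.exp (η * (S b.1).card - u) * (Real.exp (-1)) ^ (Y b.1 b.2.1 b.2.2 ω)
  let F2 : B × (Fin C → M) × (Fin C → Bool) → (X → M → Bool) → ℝ :=
    fun b ω => (1 / 2 : ℝ) ^ (C * x0) * ((2 : ℝ) ^ C) ^ (Y b.1 b.2.1 b.2.2 ω)
  have hF1 : ∀ b ∈ I1, ex (F1 b) ≤ (1 / 2 : ℝ) ^ u := by
    rintro ⟨v, f, σ⟩ hb
    obtain ⟨s, hs⟩ := (Finset.mem_filter.1 hb).2
    simp only at hs
    simp only [F1, Y]
    rw [ex_mul, mgf]
    have hc : ((Ev f σ).card : ℝ) / Fintype.card (M → Bool)
        = (1 / 2 : ℝ) ^ (Finset.univ.image f).card := by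
      rw [← card_pattern f s]; simp [Ev, hs]
    rw [hc]
    have hk : (Finset.univ.image f).card ≤ k := by
      simpa using Finset.card_image_le (s := Finset.univ) (f := f)
    set ρ : ℝ := (1 / 2 : ℝ) ^ (Finset.univ.image f).card with hρ
    have hρ1 : ρ ≤ 1 := pow_le_one₀ (by norm_num) (by norm_num)
    have hρ0 : 2 * η ≤ ρ := by
      have : (1 / 2 : ℝ) ^ k ≤ ρ := pow_le_pow_of_le_one (by norm_num) (by norm_num) hk
      rw [hη, pow_succ]; linarith
    have he : Real.exp (-1) ≤ 1 / 2 := by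
      rw [Real.exp_neg, one_div]
      apply inv_anti₀ (by norm_num)
      linarith [Real.add_one_le_exp (1 : ℝ)]
    have he0 : 0 < Real.exp (-1) := Real.exp_pos _
    have h1 := one_add_pow_le_exp' (ρ * (Real.exp (-1) - 1)) (by nlinarith) (S v).card
    have h2 : ρ * (Real.exp (-1) - 1) ≤ -η := by nlinarith
    have hm : (0 : ℝ) ≤ (S v).card := by positivity
    calc _ ≤ Real.exp (η * (S v).card - u) * Real.exp ((S v).card * (ρ * (Real.exp (-1) - 1))) := by
          gcongr
      _ = Real.exp (η * (S v).card - u + (S v).card * (ρ * (Real.exp (-1) - 1))) := by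
          rw [← Real.exp_add]
      _ ≤ Real.exp (u * (-1)) := by
          apply Real.exp_le_exp.2; nlinarith
      _ = (Real.exp (-1)) ^ u := Real.exp_nat_mul _ _
      _ ≤ _ := pow_le_pow_left₀ he0.le he u
  have hF2 : ∀ b ∈ I2, ex (F2 b) ≤ (1 / 2 : ℝ) ^ u := by
    rintro ⟨v, f, σ⟩ hb
    have hf : Function.Injective f := (Finset.mem_filter.1 hb).2
    simp only [F2, Y]
    rw [ex_mul, mgf]
    have hc : ((Ev f σ).card : ℝ) / Fintype.card (M → Bool) = (1 / 2 : ℝ) ^ C := by
      have := card_pattern f (Function.extend f σ (fun _ => false))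
      rw [Finset.card_image_of_injective _ hf] at this
      simp only [Finset.card_univ, Fintype.card_fin, hf.extend_apply] at this
      exact this
    rw [hc]
    have h1 : (1 + (1 / 2 : ℝ) ^ C * (2 ^ C - 1)) ≤ 2 := by
      have : (1 / 2 : ℝ) ^ C * 2 ^ C = 1 := by rw [← mul_pow]; norm_num
      have h0 : (0 : ℝ) ≤ (1 / 2 : ℝ) ^ C := by positivity
      nlinarith
    have h0 : 0 ≤ (1 + (1 / 2 : ℝ) ^ C * (2 ^ C - 1)) := by
      have : (1 : ℝ) ≤ 2 ^ C := one_le_pow₀ (by norm_num)
      have h0 : (0 : ℝ) ≤ (1 / 2 : ℝ) ^ C := by positivity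
      nlinarith
    calc _ ≤ (1 / 2 : ℝ) ^ (4 * D) * 2 ^ (3 * D) := by
          apply mul_le_mul (pow_le_pow_of_le_one (by norm_num) (by norm_num) hx0) _
            (pow_nonneg h0 _) (by positivity)
          calc _ ≤ (2 : ℝ) ^ (S v).card := pow_le_pow_left₀ h0 h1 _
            _ ≤ _ := pow_le_pow_right₀ (by norm_num) (hS v)
      _ = (1 / 2 : ℝ) ^ D := by
          rw [show 4 * D = D + 3 * D by ring, pow_add, mul_assoc, ← mul_pow]; norm_num
      _ ≤ _ := pow_le_pow_of_le_one (by norm_num) (by norm_num) huD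
  have hc1 : (I1.card : ℝ) ≤ Fintype.card B * (2 * Fintype.card M) ^ k := by
    have : I1.card ≤ Fintype.card (B × (Fin k → M) × (Fin k → Bool)) := Finset.card_le_univ _
    simp only [Fintype.card_prod, Fintype.card_fun, Fintype.card_fin, Fintype.card_bool] at this
    rw [mul_pow, mul_comm ((2 : ℝ) ^ k)]
    exact_mod_cast this
  have hc2 : (I2.card : ℝ) ≤ Fintype.card B * (2 * Fintype.card M) ^ C := by
    have : I2.card ≤ Fintype.card (B × (Fin C → M) × (Fin C → Bool)) := Finset.card_le_univ _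
    simp only [Fintype.card_prod, Fintype.card_fun, Fintype.card_fin, Fintype.card_bool] at this
    rw [mul_pow, mul_comm ((2 : ℝ) ^ C)]
    exact_mod_cast this
  obtain ⟨ω, hω⟩ := exists_lt_one (fun ω : X → M → Bool => ∑ b ∈ I1, F1 b ω + ∑ b ∈ I2, F2 b ω) (by
    rw [ex_add, ex_sum, ex_sum]
    have a1 := Finset.sum_le_card_nsmul I1 _ _ hF1
    have a2 := Finset.sum_le_card_nsmul I2 _ _ hF2
    simp only [nsmul_eq_mul] at a1 a2
    have hp : (0 : ℝ) < (1 / 2 : ℝ) ^ u := by positivity
    have : (2 : ℝ) ^ u * (1 / 2 : ℝ) ^ u = 1 := by rw [← mul_pow]; norm_num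
    nlinarith)
  have p1 : ∀ b, 0 ≤ F1 b ω := fun b => by simp only [F1]; positivity
  have p2 : ∀ b, 0 ≤ F2 b ω := fun b => by simp only [F2]; positivity
  have s1 : 0 ≤ ∑ b ∈ I1, F1 b ω := Finset.sum_nonneg fun b _ => p1 b
  have s2 : 0 ≤ ∑ b ∈ I2, F2 b ω := Finset.sum_nonneg fun b _ => p2 b
  refine ⟨ω, ?_, ?_⟩
  · intro v f s
    have hb : (v, f, s ∘ f) ∈ I1 := Finset.mem_filter.2 ⟨Finset.mem_univ _, s, rfl⟩
    have h1 : F1 (v, f, s ∘ f) ω < 1 := by
      have := Finset.single_le_sum (f := fun b => F1 b ω) (fun b _ => p1 b) hb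
      linarith
    simp only [F1] at h1
    rw [← Real.exp_nat_mul, ← Real.exp_add, Real.exp_lt_one_iff] at h1
    have e : Y v f (s ∘ f) ω = ((S v).filter (fun x => ∀ l, ω x (f l) = s (f l))).card := by
      simp [Y, Ev]
    rw [e] at h1
    have h2 : (2 : ℝ) ^ (k + 1) * η = 1 := by rw [hη, ← mul_pow]; norm_num
    have h3 : (0 : ℝ) < 2 ^ (k + 1) := by positivity
    have : ((S v).card : ℝ) ≤ 2 ^ (k + 1) *
        ((S v).filter (fun x => ∀ l, ω x (f l) = s (f l))).card + 2 ^ (k + 1) * u := by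
      have h4 : (2 : ℝ) ^ (k + 1) * (η * (S v).card) = (S v).card := by
        rw [← mul_assoc, h2, one_mul]
      nlinarith
    exact_mod_cast this
  · intro v f σ hf
    have hb : (v, f, σ) ∈ I2 := Finset.mem_filter.2 ⟨Finset.mem_univ _, hf⟩
    have h1 : F2 (v, f, σ) ω < 1 := by
      have := Finset.single_le_sum (f := fun b => F2 b ω) (fun b _ => p2 b) hb
      linarith
    simp only [F2] at h1
    have e : Y v f σ ω = ((S v).filter (fun x => ∀ l, ω x (f l) = σ l)).card := by
      simp [Y, Ev]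
    rw [e] at h1
    by_contra hc
    push Not at hc
    have : ((2 : ℝ) ^ C) ^ x0 ≤ ((2 : ℝ) ^ C) ^ ((S v).filter (fun x => ∀ l, ω x (f l) = σ l)).card :=
      pow_le_pow_right₀ (one_le_pow₀ (by norm_num)) hc
    have h2 : (1 / 2 : ℝ) ^ (C * x0) * ((2 : ℝ) ^ C) ^ x0 = 1 := by
      rw [← pow_mul, ← mul_pow]; norm_num
    have hp : (0 : ℝ) < (1 / 2 : ℝ) ^ (C * x0) := by positivity
    nlinarith

end Pool.Agent.MP_1da87e_co
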