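import Pool.Agent.MP_1da87e_co.Geo

/-! Rigidity of dense configurations and the core decomposition. -/

namespace Pool.Agent.MP_1da87e_co

open Finset

open Classical in
theorem rigid {I X : Type} [Fintype I] [DecidableEq I] [Fintype X] [DecidableEq X] [Inhabited X]
    (P : Finset (I → X)) (u : ℕ)
    (hP : ∀ G : Finset (Ln I X × Ln I X), G.Nonempty → ∀ Q ⊆ cand G,
        (Q.image Prod.fst ∪ Q.image Prod.snd).card = 2 * Q.card →
        Q.image Prod.fst ∪ Q.image Prod.snd ⊆ P → Q.card < G.card * u)
    (F : Finset ((I → X) × Ln I X)) (hF : ∀ e ∈ F, e.1 ∈ P ∧ Inc e.1 e.2)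
    (hpt : ∀ e ∈ F, 3 ≤ (Finset.univ.filter (fun v => (e.1, v) ∈ F)).card)
    (hln : ∀ e ∈ F, 3 * Fintype.card I * u + 1 ≤ (Finset.univ.filter (fun a => (a, e.2) ∈ F)).card)
    (α : (I → X) → (I → X)) (β : Ln I X → Ln I X)
    (hα : ∀ e ∈ F, ∀ e' ∈ F, α e.1 = α e'.1 → e.1 = e'.1)
    (hβ : ∀ e ∈ F, ∀ e' ∈ F, β e.2 = β e'.2 → e.2 = e'.2)
    (hαβ : ∀ e ∈ F, α e.1 ∈ P ∧ Inc (α e.1) (β e.2)) :
    ∀ e ∈ F, α e.1 = e.1 ∧ β e.2 = e.2 := by
  set SB := (F.image Prod.snd).filter (fun v => β v ≠ v) with hSB
  set SA := (F.image Prod.fst).filter (fun a => α a ≠ a) with hSA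
  have memSA : ∀ a, a ∈ SA ↔ (∃ v, (a, v) ∈ F) ∧ α a ≠ a := by
    intro a; simp [hSA]
  have memSB : ∀ v, v ∈ SB ↔ (∃ a, (a, v) ∈ F) ∧ β v ≠ v := by
    intro v; simp [hSB]
  have claimA : ∀ a ∈ SA, ∃ v v', v ≠ v' ∧ v ∈ SB ∧ v' ∈ SB ∧ (a, v) ∈ F ∧ (a, v') ∈ F := by
    intro a ha
    obtain ⟨⟨v0, hv0⟩, hmov⟩ := (memSA a).1 ha
    have h3 := hpt _ hv0
    simp only at h3
    have h1 : ((Finset.univ.filter (fun v => (a, v) ∈ F)).filter (fun v => β v = v)).card ≤ 1 := by
      apply Finset.card_le_one.2
      intro v hv v' hv'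
      simp only [Finset.mem_filter, Finset.mem_univ, true_and] at hv hv'
      by_contra hne
      apply hmov
      have i1 := (hαβ _ hv.1).2
      have i2 := (hαβ _ hv'.1).2
      simp only [hv.2, hv'.2] at i1 i2
      exact point_unique i1 (hF _ hv.1).2 i2 (hF _ hv'.1).2 hne
    have h2 := Finset.card_filter_add_card_filter_not (s := Finset.univ.filter (fun v => (a, v) ∈ F))
      (fun v => β v = v)
    have h4 : 1 < ((Finset.univ.filter (fun v => (a, v) ∈ F)).filter (fun v => ¬ β v = v)).card := by
      omega
    obtain ⟨v, hv, v', hv', hne⟩ := Finset.one_lt_card.1 h4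
    simp only [Finset.mem_filter, Finset.mem_univ, true_and] at hv hv'
    exact ⟨v, v', hne, (memSB v).2 ⟨⟨a, hv.1⟩, hv.2⟩, (memSB v').2 ⟨⟨a, hv'.1⟩, hv'.2⟩, hv.1, hv'.1⟩
  have hSBe : SB = ∅ := by
    by_contra hne
    have hne : SB.Nonempty := Finset.nonempty_iff_ne_empty.2 hne
    have hK : 0 < Fintype.card I := by
      obtain ⟨v, _⟩ := hne
      have : Nonempty I := ⟨v.dir⟩
      exact Fintype.card_pos
    have hdc := Finset.card_mul_le_card_mul (s := SB) (t := SA) (fun v a => (a, v) ∈ F)
      (m := 3 * Fintype.card I * u) (n := Fintype.card I) (by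
        intro v hv
        obtain ⟨⟨a0, ha0⟩, hmov⟩ := (memSB v).1 hv
        have h3 := hln _ ha0
        simp only at h3
        have h1 : ((Finset.univ.filter (fun a => (a, v) ∈ F)).filter (fun a => α a = a)).card ≤ 1 := by
          apply Finset.card_le_one.2
          intro a ha a' ha'
          simp only [Finset.mem_filter, Finset.mem_univ, true_and] at ha ha'
          by_contra hne
          apply hmov
          have i1 := (hαβ _ ha.1).2
          have i2 := (hαβ _ ha'.1).2
          simp only [ha.2, ha'.2] at i1 i2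
          exact line_unique i1 i2 (hF _ ha.1).2 (hF _ ha'.1).2 hne
        have h2 := Finset.card_filter_add_card_filter_not
          (s := Finset.univ.filter (fun a => (a, v) ∈ F)) (fun a => α a = a)
        have h4 : ((Finset.univ.filter (fun a => (a, v) ∈ F)).filter (fun a => ¬ α a = a))
            ⊆ SA.bipartiteAbove (fun v a => (a, v) ∈ F) v := by
          intro a ha
          simp only [Finset.mem_filter, Finset.mem_univ, true_and] at ha
          exact (Finset.mem_bipartiteAbove _).2 ⟨(memSA a).2 ⟨⟨v, ha.1⟩, ha.2⟩, ha.1⟩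
        have h5 := Finset.card_le_card h4
        omega) (by
        intro a _
        apply card_lines_le a
        intro v hv
        exact (hF _ ((Finset.mem_bipartiteBelow _).1 hv).2).2)
    obtain ⟨T, hT, hc, hTf⟩ := exists_third α _ SA rfl (by
      intro a ha a' ha' h
      obtain ⟨⟨v, hv⟩, -⟩ := (memSA a).1 ha
      obtain ⟨⟨v', hv'⟩, -⟩ := (memSA a').1 ha'
      exact hα _ hv _ hv' h) (fun a ha => ((memSA a).1 ha).2)
    set G := SB.image (fun v => (v, β v)) with hG
    have hGc : G.card = SB.card :=
      Finset.card_image_of_injective _ (fun v v' h => congrArg Prod.fst h)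
    have himg : ∀ v ∈ SB, img G v = β v := by
      intro v hv
      have h : ∃ u, (v, u) ∈ G := ⟨β v, Finset.mem_image.2 ⟨v, hv, rfl⟩⟩
      unfold img
      rw [dif_pos h]
      obtain ⟨w, -, hw⟩ := Finset.mem_image.1 h.choose_spec
      have e1 : w = v := congrArg Prod.fst hw
      have e2 : β w = h.choose := congrArg Prod.snd hw
      rw [← e2, e1]
    set Q := T.image (fun a => (a, α a)) with hQ
    have hQc : Q.card = T.card :=
      Finset.card_image_of_injective _ (fun v v' h => congrArg Prod.fst h)
    have hQ1 : Q.image Prod.fst = T := by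
      rw [hQ, Finset.image_image]
      exact Finset.image_id
    have hQ2 : Q.image Prod.snd = T.image α := by
      rw [hQ, Finset.image_image]; rfl
    have hlt := hP G (hne.image _) Q (by
      intro p hp
      obtain ⟨a, ha, rfl⟩ := Finset.mem_image.1 hp
      obtain ⟨v, v', hvv, hv, hv', hav, hav'⟩ := claimA a (hT ha)
      unfold cand
      simp only [Finset.mem_image]
      refine ⟨((v, β v), (a v.dir, v'.dir)), ?_, ?_⟩
      · exact Finset.mem_product.2 ⟨Finset.mem_image.2 ⟨v, hv, rfl⟩, Finset.mem_univ _⟩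
      · have i1 : Inc a v := (hF _ hav).2
        have i2 : Inc a v' := (hF _ hav').2
        simp only [pt_eq i1, ln_dir i2, himg v' hv']
        rw [meet_eq (hαβ _ hav).2 (hαβ _ hav').2 (fun h => hvv (hβ _ hav _ hav' h))]) (by
      rw [hQ1, hQ2, hQc, Finset.card_union_of_disjoint, Finset.card_image_of_injOn]
      · ring
      · intro a ha a' ha' h
        obtain ⟨⟨v, hv⟩, -⟩ := (memSA a).1 (hT ha)
        obtain ⟨⟨v', hv'⟩, -⟩ := (memSA a').1 (hT ha')
        exact hα _ hv _ hv' h
      · rw [Finset.disjoint_right]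
        intro b hb
        obtain ⟨a, ha, rfl⟩ := Finset.mem_image.1 hb
        exact hTf a ha) (by
      rw [hQ1, hQ2]
      intro b hb
      rcases Finset.mem_union.1 hb with hb | hb
      · obtain ⟨⟨v, hv⟩, -⟩ := (memSA b).1 (hT hb)
        exact (hF _ hv).1
      · obtain ⟨a, ha, rfl⟩ := Finset.mem_image.1 hb
        obtain ⟨⟨v, hv⟩, -⟩ := (memSA a).1 (hT ha)
        exact (hαβ _ hv).1)
    rw [hQc, hGc] at hlt
    have h7 : SB.card * (3 * Fintype.card I * u) ≤ 3 * T.card * Fintype.card I :=
      hdc.trans (Nat.mul_le_mul_right _ hc)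
    have h8 : (SB.card * u) * (3 * Fintype.card I) ≤ T.card * (3 * Fintype.card I) := by
      calc _ = SB.card * (3 * Fintype.card I * u) := by ring
        _ ≤ _ := h7
        _ = _ := by ring
    have := Nat.le_of_mul_le_mul_right h8 (by omega)
    omega
  rintro ⟨a, v⟩ he
  constructor
  · by_contra h
    obtain ⟨w, -, -, hw, -⟩ := claimA a ((memSA a).2 ⟨⟨v, he⟩, h⟩)
    rw [hSBe] at hw
    simp at hw
  · by_contra h
    have : v ∈ SB := (memSB v).2 ⟨⟨a, he⟩, h⟩
    rw [hSBe] at this
    simp at this

open Classical in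
/-- peeling off vertices of small degree. -/
theorem exists_core {A B : Type} [Fintype A] [Fintype B] (κ θ : ℕ) :
    ∀ (n : ℕ) (E : Finset (A × B)), E.card = n → ∃ C ⊆ E, ∃ c : A → B → Prop,
      (∀ e ∈ C, κ ≤ (Finset.univ.filter (fun v => (e.1, v) ∈ C)).card ∧
        θ ≤ (Finset.univ.filter (fun a => (a, e.2) ∈ C)).card) ∧
      (∀ a, (Finset.univ.filter (fun v => (a, v) ∈ E \ C ∧ c a v)).card ≤ κ) ∧
      (∀ v, (Finset.univ.filter (fun a => (a, v) ∈ E \ C ∧ ¬ c a v)).card ≤ θ) := by
  intro n
  induction n using Nat.strong_induction_on with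
  | _ n ih =>
    intro E hn
    by_cases hcore : ∀ e ∈ E, κ ≤ (Finset.univ.filter (fun v => (e.1, v) ∈ E)).card ∧
        θ ≤ (Finset.univ.filter (fun a => (a, e.2) ∈ E)).card
    · exact ⟨E, subset_rfl, fun _ _ => True, hcore, by simp, by simp⟩
    · push Not at hcore
      obtain ⟨⟨a0, v0⟩, he, hbad⟩ := hcore
      by_cases h1 : κ ≤ (Finset.univ.filter (fun v => (a0, v) ∈ E)).card
      · have h2 := hbad h1
        simp only at h2
        set E' := E.filter (fun e => e.2 ≠ v0) with hE'
        have hlt : E'.card < n := by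
          rw [← hn]
          apply Finset.card_lt_card
          refine ⟨Finset.filter_subset _ _, fun h => ?_⟩
          have := h he
          simp [hE'] at this
        obtain ⟨C, hC, c, hc1, hc2, hc3⟩ := ih _ hlt E' rfl
        refine ⟨C, hC.trans (Finset.filter_subset _ _), fun a v => c a v ∧ v ≠ v0, hc1, ?_, ?_⟩
        · intro a
          refine le_trans (Finset.card_le_card ?_) (hc2 a)
          intro v hv
          simp only [Finset.mem_filter, Finset.mem_univ, true_and, Finset.mem_sdiff, hE'] at hv ⊢
          tauto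
        · intro v
          by_cases hv : v = v0
          · subst hv
            refine le_trans (Finset.card_le_card ?_) h2.le
            intro a ha
            simp only [Finset.mem_filter, Finset.mem_univ, true_and, Finset.mem_sdiff] at ha ⊢
            tauto
          · refine le_trans (Finset.card_le_card ?_) (hc3 v)
            intro a ha
            simp only [Finset.mem_filter, Finset.mem_univ, true_and, Finset.mem_sdiff, hE'] at ha ⊢
            tauto
      · push Not at h1
        set E' := E.filter (fun e => e.1 ≠ a0) with hE'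
        have hlt : E'.card < n := by
          rw [← hn]
          apply Finset.card_lt_card
          refine ⟨Finset.filter_subset _ _, fun h => ?_⟩
          have := h he
          simp [hE'] at this
        obtain ⟨C, hC, c, hc1, hc2, hc3⟩ := ih _ hlt E' rfl
        refine ⟨C, hC.trans (Finset.filter_subset _ _), fun a v => c a v ∨ a = a0, hc1, ?_, ?_⟩
        · intro a
          by_cases ha : a = a0
          · subst ha
            refine le_trans (Finset.card_le_card ?_) h1.le
            intro v hv
            simp only [Finset.mem_filter, Finset.mem_univ, true_and, Finset.mem_sdiff] at hv ⊢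
            tauto
          · refine le_trans (Finset.card_le_card ?_) (hc2 a)
            intro v hv
            simp only [Finset.mem_filter, Finset.mem_univ, true_and, Finset.mem_sdiff, hE'] at hv ⊢
            tauto
        · intro v
          refine le_trans (Finset.card_le_card ?_) (hc3 v)
          intro a ha
          simp only [Finset.mem_filter, Finset.mem_univ, true_and, Finset.mem_sdiff, hE'] at ha ⊢
          tauto

/-- distinct representatives from large sets. -/
lemma exists_inj_choice {J α : Type} [Fintype J] [DecidableEq α] (S : J → Finset α)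
    (h : ∀ j, Fintype.card J ≤ (S j).card) : ∃ f : J → α, Function.Injective f ∧ ∀ j, f j ∈ S j := by
  apply (Finset.all_card_le_biUnion_card_iff_exists_injective S).1
  intro s
  rcases s.eq_empty_or_nonempty with rfl | ⟨j, hj⟩
  · simp
  · calc s.card ≤ Fintype.card J := Finset.card_le_univ s
      _ ≤ (S j).card := h j
      _ ≤ _ := Finset.card_le_card (Finset.subset_biUnion_of_mem S hj)

end Pool.Agent.MP_1da87e_co
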