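import Pool.Agent.MP_1da87e_co.Rigid

/-! The host graph, good images, and the lower bound for the union covering number. -/

namespace Pool.Agent.MP_1da87e_co

open Finset Sum

abbrev Idx (Γ I X : Type) [Inhabited X] (R : ℕ) : Type :=
  (I → X) × (I → X) × (I → Γ) × (Γ × Γ → Ln I X) × Fin R

abbrev Vx (I X : Type) [Inhabited X] : Type := (I → X) ⊕ Ln I X

section defs

variable {Γ I X : Type} [Fintype Γ] [DecidableEq Γ] [AddCommGroup Γ] [Fintype I] [DecidableEq I]
  [Fintype X] [DecidableEq X] [Inhabited X] {R : ℕ}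

def bit (lam : X → Idx Γ I X R → Bool) (π : Idx Γ I X R) (i : I) (x : X) : Bool :=
  if x = π.1 i then false else if x = π.2.1 i then true else lam x π

def label (lam : X → Idx Γ I X R → Bool) (π : Idx Γ I X R) (a : I → X) : Γ :=
  ∑ i, if bit lam π i (a i) then π.2.2.1 i else 0

def base (lam : X → Idx Γ I X R → Bool) (π : Idx Γ I X R) (v : Ln I X) : Γ :=
  ∑ i ∈ Finset.univ.erase v.dir, if bit lam π i (v.1.2 i) then π.2.2.1 i else 0

omit [Fintype Γ] [DecidableEq Γ] [Fintype X] in
lemma label_eq (lam : X → Idx Γ I X R → Bool) (π : Idx Γ I X R) {a : I → X} {v : Ln I X}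
    (h : Inc a v) : label lam π a
      = base lam π v + if bit lam π v.dir (a v.dir) then π.2.2.1 v.dir else 0 := by
  unfold label base
  rw [← Finset.sum_erase_add _ _ (Finset.mem_univ v.dir)]
  congr 1
  apply Finset.sum_congr rfl
  intro j hj
  rw [h j (Finset.ne_of_mem_erase hj)]

def gr (F : Finset ((I → X) × Ln I X)) : SimpleGraph (Vx I X) where
  Adj x y := ∃ a v, (a, v) ∈ F ∧ ((x = inl a ∧ y = inr v) ∨ (x = inr v ∧ y = inl a))
  symm := ⟨by
    rintro x y ⟨a, v, h, h1 | h1⟩
    · exact ⟨a, v, h, Or.inr ⟨h1.2, h1.1⟩⟩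
    · exact ⟨a, v, h, Or.inl ⟨h1.2, h1.1⟩⟩⟩
  loopless := ⟨by
    rintro x ⟨a, v, -, ⟨h1, h2⟩ | ⟨h1, h2⟩⟩ <;> rw [h1] at h2 <;> cases h2⟩

omit [Fintype I] [DecidableEq I] [Fintype X] [DecidableEq X] in
@[simp] lemma gr_lr (F : Finset ((I → X) × Ln I X)) (a : I → X) (v : Ln I X) :
    (gr F).Adj (inl a) (inr v) ↔ (a, v) ∈ F := by
  simp [gr]

omit [Fintype I] [DecidableEq I] [Fintype X] [DecidableEq X] in
@[simp] lemma gr_rl (F : Finset ((I → X) × Ln I X)) (a : I → X) (v : Ln I X) :
    (gr F).Adj (inr v) (inl a) ↔ (a, v) ∈ F := by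
  simp [gr]

omit [Fintype I] [DecidableEq I] [Fintype X] [DecidableEq X] in
@[simp] lemma gr_ll (F : Finset ((I → X) × Ln I X)) (a b : I → X) :
    ¬ (gr F).Adj (inl a) (inl b) := by
  simp [gr]

omit [Fintype I] [DecidableEq I] [Fintype X] [DecidableEq X] in
@[simp] lemma gr_rr (F : Finset ((I → X) × Ln I X)) (u v : Ln I X) :
    ¬ (gr F).Adj (inr u) (inr v) := by
  simp [gr]

open Classical in
noncomputable def EP (P : Finset (I → X)) : Finset ((I → X) × Ln I X) :=
  Finset.univ.filter (fun e => e.1 ∈ P ∧ Inc e.1 e.2)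

@[simp] lemma mem_EP (P : Finset (I → X)) (e : (I → X) × Ln I X) :
    e ∈ EP P ↔ e.1 ∈ P ∧ Inc e.1 e.2 := by
  simp [EP]

open Classical in
def Sparse (κ θ : ℕ) (Rl : Vx I X → Vx I X → Prop) : Prop :=
  ∃ c : (I → X) → Ln I X → Prop,
    (∀ a, (Finset.univ.filter (fun v => Rl (inl a) (inr v) ∧ c a v)).card ≤ κ) ∧
    (∀ v, (Finset.univ.filter (fun a => Rl (inl a) (inr v) ∧ ¬ c a v)).card ≤ θ)

def Typed (lam : X → Idx Γ I X R → Bool) (ρ : ℕ) (Im : Set (Vx I X))
    (Rl : Vx I X → Vx I X → Prop) : Prop :=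
  ∃ (π : Idx Γ I X R) (c : Γ), (∀ g, (Finset.univ.filter (fun i => π.2.2.1 i = g)).card ≤ ρ) ∧
    (∀ a v, Rl (inl a) (inr v) → label lam π a = c) ∧
    ∀ c', inr (π.2.2.2.1 (c, c')) ∈ Im ∧ inr (π.2.2.2.1 (c', c)) ∈ Im

end defs

open Classical in
lemma card_le_of_fst {A B : Type} [Fintype B] (T : Finset (A × B)) (P : Finset A) (m : ℕ)
    (h1 : ∀ e ∈ T, e.1 ∈ P) (h2 : ∀ a, (Finset.univ.filter (fun v => (a, v) ∈ T)).card ≤ m) :
    T.card ≤ P.card * m := by
  rw [Finset.card_eq_sum_card_fiberwise (f := Prod.fst) (t := P) (fun e he => h1 e he)]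
  apply (Finset.sum_le_card_nsmul _ _ m _).trans (by simp)
  intro a _
  refine le_trans ?_ (h2 a)
  apply Finset.card_le_card_of_injOn Prod.snd
  · rintro ⟨a', v⟩ he
    simp only [Finset.coe_filter, Set.mem_ofPred_eq, Finset.mem_univ, true_and] at he ⊢
    rw [← he.2]; exact he.1
  · rintro ⟨a', v⟩ he ⟨a'', v'⟩ he' h
    simp only [Finset.coe_filter, Set.mem_ofPred_eq] at he he' h
    rw [he.2, he'.2, h]

open Classical in
lemma sum_fiber_snd {A B : Type} [Fintype A] [Fintype B] (T : Finset (A × B)) :
    ∑ v, (Finset.univ.filter (fun a => (a, v) ∈ T)).card = T.card := by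
  rw [Finset.card_eq_sum_card_fiberwise (f := Prod.snd) (s := T) (t := Finset.univ)
    (fun e _ => Finset.mem_univ _)]
  apply Finset.sum_congr rfl
  intro v _
  apply Finset.card_bij (fun a _ => (a, v))
  · intro a ha; simpa using ha
  · intro a _ a' _ h; exact congrArg Prod.fst h
  · rintro ⟨a, v'⟩ he
    simp only [Finset.mem_filter] at he
    refine ⟨a, ?_, ?_⟩
    · simp only [Finset.mem_filter, Finset.mem_univ, true_and]
      rw [← he.2]; exact he.1
    · rw [← he.2]

open Classical in
lemma sum_line_card {I X : Type} [Fintype I] [DecidableEq I] [Fintype X] [DecidableEq X]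
    [Inhabited X] (P : Finset (I → X)) :
    ∑ v : Ln I X, (Finset.univ.filter (fun x => pt v x ∈ P)).card = Fintype.card I * P.card := by
  have h := sum_fiber_snd (Finset.univ.filter (fun e : X × Ln I X => pt e.2 e.1 ∈ P))
  simp only [Finset.mem_filter, Finset.mem_univ, true_and] at h
  rw [h, ← Finset.card_univ, ← Finset.card_product]
  apply Finset.card_bij (fun e _ => (e.2.dir, pt e.2 e.1))
  · intro e he; simpa using he
  · intro e _ e' _ h
    have := lnEquiv.injective (a₁ := (e.2, e.1)) (a₂ := (e'.2, e'.1)) h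
    exact Prod.ext (congrArg Prod.snd this) (congrArg Prod.fst this)
  · rintro ⟨i, a⟩ he
    have e1 : pt (ln a i) (a i) = a := pt_eq (inc_ln a i)
    refine ⟨(a i, ln a i), ?_, ?_⟩
    · simp only [Finset.mem_filter, Finset.mem_univ, true_and, e1]
      simpa using he
    · simp [e1]

open Classical in
theorem not_cover {Γ I X : Type} [Fintype Γ] [DecidableEq Γ] [AddCommGroup Γ] [Fintype I]
    [DecidableEq I] [Fintype X] [DecidableEq X] [Inhabited X] {R : ℕ} (hR : 0 < R) [Nonempty I]
    (lam : X → Idx Γ I X R → Bool) (P : Finset (I → X)) (k κ θ ρ A : ℕ)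
    (hlow : ∀ (v : Ln I X) (f : Fin k → Idx Γ I X R) (s : Idx Γ I X R → Bool),
      (Finset.univ.filter (fun x => pt v x ∈ P)).card ≤ 2 ^ (k + 1) *
        ((Finset.univ.filter (fun x => pt v x ∈ P)).filter
          (fun x => ∀ l, lam x (f l) = s (f l))).card + A)
    (hnum : 2 ^ (k + 1) * (P.card * (k * κ + k * (k * ρ)) + Fintype.card (Ln I X) * (k * θ + 2 * k))
      + Fintype.card (Ln I X) * A < Fintype.card I * P.card)
    {J : Type} [Fintype J] (fam : J → Fin k) (Im : J → Set (Vx I X))
    (Rl : J → Vx I X → Vx I X → Prop) (hRl : ∀ j x y, Rl j x y → x ∈ Im j ∧ y ∈ Im j)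
    (hdisj : ∀ j j' x, fam j = fam j' → x ∈ Im j → x ∈ Im j' → j = j')
    (hOK : ∀ j, Sparse κ θ (Rl j) ∨ Typed lam ρ (Im j) (Rl j)) :
    ∃ x y, (gr (EP P)).Adj x y ∧ ∀ j, ¬ Rl j x y := by
  by_contra hcon
  push Not at hcon
  have hcov : ∀ a v, a ∈ P → Inc a v → ∃ j, Rl j (inl a) (inr v) := fun a v h1 h2 =>
    hcon _ _ (by simp [h1, h2])
  let π0 : Idx Γ I X R := (fun _ => default, fun _ => default, fun _ => 0,
    fun _ => ln (fun _ => default) (Classical.arbitrary I), ⟨0, hR⟩)
  have hch : ∀ j, ∃ (ty : Prop) (c : (I → X) → Ln I X → Prop) (π : Idx Γ I X R) (cc : Γ),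
      (¬ ty → (∀ a, (Finset.univ.filter (fun v => Rl j (inl a) (inr v) ∧ c a v)).card ≤ κ) ∧
        (∀ v, (Finset.univ.filter (fun a => Rl j (inl a) (inr v) ∧ ¬ c a v)).card ≤ θ)) ∧
      (ty → (∀ g, (Finset.univ.filter (fun i => π.2.2.1 i = g)).card ≤ ρ) ∧
        (∀ a v, Rl j (inl a) (inr v) → label lam π a = cc) ∧
        ∀ c', inr (π.2.2.2.1 (cc, c')) ∈ Im j ∧ inr (π.2.2.2.1 (c', cc)) ∈ Im j) := by
    intro j
    rcases hOK j with ⟨c, h⟩ | ⟨π, cc, h⟩
    · exact ⟨False, c, π0, 0, fun _ => h, fun h => h.elim⟩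
    · exact ⟨True, fun _ _ => True, π, cc, fun h => (h trivial).elim, fun _ => h⟩
  choose ty cj πj cc hsp hty using hch
  have hJ : ∀ x, (Finset.univ.filter (fun j => x ∈ Im j)).card ≤ k := by
    intro x
    have := Finset.card_le_card_of_injOn (s := Finset.univ.filter (fun j => x ∈ Im j))
      (t := Finset.univ) fam (by simp) (by
        intro j hj j' hj' h
        simp only [Finset.coe_filter, Set.mem_ofPred_eq, Finset.mem_univ, true_and] at hj hj'
        exact hdisj j j' x h hj hj')
    simpa using this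
  let II : Idx Γ I X R → Finset Γ := fun π =>
    (Finset.univ.filter (fun j => ty j ∧ πj j = π)).image cc
  have hII : ∀ π, (II π).card ≤ k := by
    intro π
    refine Finset.card_image_le.trans ?_
    have := Finset.card_le_card_of_injOn (s := Finset.univ.filter (fun j => ty j ∧ πj j = π))
      (t := Finset.univ) fam (by simp) (by
        intro j hj j' hj' h
        simp only [Finset.coe_filter, Set.mem_ofPred_eq, Finset.mem_univ, true_and] at hj hj'
        have h1 := ((hty j hj.1).2.2 (cc j')).1
        have h2 := ((hty j' hj'.1).2.2 (cc j)).2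
        rw [hj.2] at h1
        rw [hj'.2] at h2
        exact hdisj j j' _ h h1 h2)
    simpa using this
  have memII : ∀ j, ty j → cc j ∈ II (πj j) := fun j hj =>
    Finset.mem_image.2 ⟨j, by simp [hj], rfl⟩
  let T1 : Finset ((I → X) × Ln I X) := Finset.univ.filter (fun e => e.1 ∈ P ∧
    ∃ j, ¬ ty j ∧ Rl j (inl e.1) (inr e.2) ∧ cj j e.1 e.2)
  let T2 : Finset ((I → X) × Ln I X) := Finset.univ.filter (fun e =>
    ∃ j, ¬ ty j ∧ Rl j (inl e.1) (inr e.2) ∧ ¬ cj j e.1 e.2)
  let T3 : Finset ((I → X) × Ln I X) := Finset.univ.filter (fun e => e.1 ∈ P ∧ Inc e.1 e.2 ∧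
    ∃ j, ty j ∧ Rl j (inl e.1) (inr e.2) ∧ cc j + (πj j).2.2.1 e.2.dir ∈ II (πj j))
  have hT1 : T1.card ≤ P.card * (k * κ) := by
    apply card_le_of_fst T1 P _ (fun e he => (Finset.mem_filter.1 he).2.1)
    intro a
    have hsub : Finset.univ.filter (fun v => (a, v) ∈ T1) ⊆
        (Finset.univ.filter (fun j => inl a ∈ Im j)).biUnion (fun j =>
          Finset.univ.filter (fun v => ¬ ty j ∧ Rl j (inl a) (inr v) ∧ cj j a v)) := by
      intro v hv
      simp only [T1, Finset.mem_filter, Finset.mem_univ, true_and] at hv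
      obtain ⟨-, j, h1, h2, h3⟩ := hv
      simp only [Finset.mem_biUnion, Finset.mem_filter, Finset.mem_univ, true_and]
      exact ⟨j, (hRl j _ _ h2).1, h1, h2, h3⟩
    refine le_trans (Finset.card_le_card ?_) ((Finset.card_le_card hsub).trans
      ((Finset.card_biUnion_le_card_mul _ _ κ ?_).trans (Nat.mul_le_mul_right _ (hJ _))))
    · intro v hv; simpa using hv
    · intro j _
      by_cases h : ty j
      · simp [h]
      · simpa [h] using (hsp j h).1 a
  have hT2 : T2.card ≤ Fintype.card (Ln I X) * (k * θ) := by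
    rw [← sum_fiber_snd T2]
    apply (Finset.sum_le_card_nsmul _ _ (k * θ) _).trans (by simp)
    intro v _
    have hsub : Finset.univ.filter (fun a => (a, v) ∈ T2) ⊆
        (Finset.univ.filter (fun j => inr v ∈ Im j)).biUnion (fun j =>
          Finset.univ.filter (fun a => ¬ ty j ∧ Rl j (inl a) (inr v) ∧ ¬ cj j a v)) := by
      intro a ha
      simp only [T2, Finset.mem_filter, Finset.mem_univ, true_and] at ha
      obtain ⟨j, h1, h2, h3⟩ := ha
      simp only [Finset.mem_biUnion, Finset.mem_filter, Finset.mem_univ, true_and]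
      exact ⟨j, (hRl j _ _ h2).2, h1, h2, h3⟩
    refine le_trans (Finset.card_le_card ?_) ((Finset.card_le_card hsub).trans
      ((Finset.card_biUnion_le_card_mul _ _ θ ?_).trans (Nat.mul_le_mul_right _ (hJ _))))
    · intro v hv; simpa using hv
    · intro j _
      by_cases h : ty j
      · simp [h]
      · simpa [h] using (hsp j h).2 v
  have hT3 : T3.card ≤ P.card * (k * (k * ρ)) := by
    apply card_le_of_fst T3 P _ (fun e he => (Finset.mem_filter.1 he).2.1)
    intro a
    have hsub : Finset.univ.filter (fun v => (a, v) ∈ T3) ⊆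
        (Finset.univ.filter (fun j => inl a ∈ Im j)).biUnion (fun j =>
          Finset.univ.filter (fun v => ty j ∧ Inc a v ∧ cc j + (πj j).2.2.1 v.dir ∈ II (πj j))) := by
      intro v hv
      simp only [T3, Finset.mem_filter, Finset.mem_univ, true_and] at hv
      obtain ⟨-, h0, j, h1, h2, h3⟩ := hv
      simp only [Finset.mem_biUnion, Finset.mem_filter, Finset.mem_univ, true_and]
      exact ⟨j, (hRl j _ _ h2).1, h1, h0, h3⟩
    refine le_trans (Finset.card_le_card ?_) ((Finset.card_le_card hsub).trans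
      ((Finset.card_biUnion_le_card_mul _ _ (k * ρ) ?_).trans (Nat.mul_le_mul_right _ (hJ _))))
    · intro v hv; simpa using hv
    · intro j _
      by_cases h : ty j
      · have h1 : (Finset.univ.filter (fun v : Ln I X => ty j ∧ Inc a v ∧
            cc j + (πj j).2.2.1 v.dir ∈ II (πj j))).card ≤ ((II (πj j)).biUnion (fun g =>
              Finset.univ.filter (fun i => (πj j).2.2.1 i = g - cc j))).card := by
          apply Finset.card_le_card_of_injOn Ln.dir
          · intro v hv
            simp only [Finset.coe_filter, Set.mem_ofPred_eq, Finset.mem_univ, true_and] at hv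
            simp only [Finset.coe_biUnion, Finset.mem_coe, Set.mem_iUnion, Finset.mem_filter,
              Finset.mem_univ, true_and]
            exact ⟨_, hv.2.2, by abel⟩
          · intro v hv v' hv' hh
            simp only [Finset.coe_filter, Set.mem_ofPred_eq, Finset.mem_univ, true_and] at hv hv'
            exact eq_of_dir hv.2.1 hv'.2.1 hh
        refine h1.trans ((Finset.card_biUnion_le_card_mul _ _ ρ ?_).trans
          (Nat.mul_le_mul_right _ (hII _)))
        intro g _
        exact (hty j h).1 _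
      · simp [h]
  let T := T1 ∪ T2 ∪ T3
  have hT : T.card ≤ P.card * (k * κ + k * (k * ρ)) + Fintype.card (Ln I X) * (k * θ) := by
    have h1 := Finset.card_union_le (T1 ∪ T2) T3
    have h2 := Finset.card_union_le T1 T2
    have : T.card = (T1 ∪ T2 ∪ T3).card := rfl
    rw [mul_add]
    omega
  have hline : ∀ v : Ln I X, (Finset.univ.filter (fun x => pt v x ∈ P)).card ≤
      2 ^ (k + 1) * (2 * k + (Finset.univ.filter (fun a => (a, v) ∈ T)).card) + A := by
    intro v
    let f : Fin k → Idx Γ I X R := fun l =>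
      if h : ∃ j, fam j = l ∧ inr v ∈ Im j then πj h.choose else π0
    have hf : ∀ j, inr v ∈ Im j → f (fam j) = πj j := by
      intro j hj
      have h : ∃ j', fam j' = fam j ∧ inr v ∈ Im j' := ⟨j, rfl, hj⟩
      simp only [f, dif_pos h]
      rw [hdisj _ _ _ h.choose_spec.1 h.choose_spec.2 hj]
    let s : Idx Γ I X R → Bool := fun π => decide (∃ j a, ty j ∧ πj j = π ∧ Rl j (inl a) (inr v) ∧
      Inc a v ∧ cc j + π.2.2.1 v.dir ∉ II π ∧ bit lam π v.dir (a v.dir) = false)
    refine (hlow v f s).trans ?_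
    gcongr
    let Z : Finset X := Finset.univ.image (fun l => (f l).1 v.dir) ∪
      Finset.univ.image (fun l => (f l).2.1 v.dir)
    have hZ : Z.card ≤ 2 * k := by
      refine (Finset.card_union_le _ _).trans ?_
      have h1 := Finset.card_image_le (s := Finset.univ) (f := fun l => (f l).1 v.dir)
      have h2 := Finset.card_image_le (s := Finset.univ) (f := fun l => (f l).2.1 v.dir)
      simp only [Finset.card_univ, Fintype.card_fin] at h1 h2
      omega
    have hsub : (Finset.univ.filter (fun x => pt v x ∈ P)).filter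
          (fun x => ∀ l, lam x (f l) = s (f l)) ⊆
        Z ∪ (Finset.univ.filter (fun a => (a, v) ∈ T)).image (fun a => a v.dir) := by
      intro x hx
      simp only [Finset.mem_filter, Finset.mem_univ, true_and] at hx
      obtain ⟨hxP, hxs⟩ := hx
      by_cases hxZ : x ∈ Z
      · exact Finset.mem_union_left _ hxZ
      apply Finset.mem_union_right
      refine Finset.mem_image.2 ⟨pt v x, ?_, by simp⟩
      simp only [Finset.mem_filter, Finset.mem_univ, true_and]
      obtain ⟨j, hj⟩ := hcov _ v hxP (inc_pt v x)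
      by_cases h : ty j
      · by_cases hp : cc j + (πj j).2.2.1 v.dir ∈ II (πj j)
        · apply Finset.mem_union_right
          simp only [T3, Finset.mem_filter, Finset.mem_univ, true_and]
          exact ⟨hxP, inc_pt v x, j, h, hj, hp⟩
        · exfalso
          have hfj := hf j (hRl j _ _ hj).2
          have hb : bit lam (πj j) v.dir x = s (πj j) := by
            have h1 : x ≠ (πj j).1 v.dir := by
              intro h1
              apply hxZ
              apply Finset.mem_union_left
              exact Finset.mem_image.2 ⟨fam j, Finset.mem_univ _, by rw [hfj, h1]⟩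
            have h2 : x ≠ (πj j).2.1 v.dir := by
              intro h2
              apply hxZ
              apply Finset.mem_union_right
              exact Finset.mem_image.2 ⟨fam j, Finset.mem_univ _, by rw [hfj, h2]⟩
            have := hxs (fam j)
            rw [hfj] at this
            simp [bit, h1, h2, this]
          by_cases hs : s (πj j) = true
          · have hs' := hs
            simp only [s, decide_eq_true_eq] at hs'
            obtain ⟨j', a', h1, h2, h3, h4, h5, h6⟩ := hs'
            have l1 := (hty j' h1).2.1 _ _ h3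
            rw [h2, label_eq lam _ h4, h6] at l1
            have l2 := (hty j h).2.1 _ _ hj
            rw [label_eq lam _ (inc_pt v x), pt_dir, hb, hs] at l2
            simp only [Bool.false_eq_true, if_false, add_zero, if_true] at l1 l2
            apply h5
            rw [← l1, l2]
            exact memII j h
          · apply hs
            simp only [s, decide_eq_true_eq]
            refine ⟨j, pt v x, h, rfl, hj, inc_pt v x, hp, ?_⟩
            rw [pt_dir, hb]
            simpa using hs
      · apply Finset.mem_union_left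
        by_cases hc : cj j (pt v x) v
        · apply Finset.mem_union_left
          simp only [T1, Finset.mem_filter, Finset.mem_univ, true_and]
          exact ⟨hxP, j, h, hj, hc⟩
        · apply Finset.mem_union_right
          simp only [T2, Finset.mem_filter, Finset.mem_univ, true_and]
          exact ⟨j, h, hj, hc⟩
    refine (Finset.card_le_card hsub).trans ((Finset.card_union_le _ _).trans ?_)
    exact Nat.add_le_add hZ Finset.card_image_le
  have hsum := Finset.sum_le_sum (s := Finset.univ) (fun v _ => hline v)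
  rw [sum_line_card, Finset.sum_add_distrib, ← Finset.mul_sum, Finset.sum_add_distrib] at hsum
  have hs2 := sum_fiber_snd T
  simp only [Finset.sum_const, Finset.card_univ, smul_eq_mul] at hsum
  have e : ∑ v, (Finset.univ.filter (fun a => (a, v) ∈ T)).card = T.card := by
    convert hs2
  rw [e] at hsum
  have : 2 ^ (k + 1) * (Fintype.card (Ln I X) * (2 * k) + T.card) ≤
      2 ^ (k + 1) * (P.card * (k * κ + k * (k * ρ)) + Fintype.card (Ln I X) * (k * θ + 2 * k)) := by
    apply Nat.mul_le_mul_left
    rw [mul_add (Fintype.card (Ln I X))]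
    omega
  omega

end Pool.Agent.MP_1da87e_co
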